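import Pool.Agent.Lib.MP_98022b_om.UC
import Pool.Agent.Lib.MP_98022b_vs.FIS
import Pool.Agent.Lib.MP_98022b_vs.Descent

/-!
# The universal group is in the class
-/

set_option autoImplicit false

namespace Pool.Agent.OM

open SimpleGraph Pool.Agent.FJ UC
open Pool.Agent.Biset hiding TorsionFree

variable {S : ∀ (G : Type) [Group G], Prop}

/-- Every finitely generated subgroup is virtually solvable of rank in `B`. -/
def LV (B : ℕ → Prop) (G : Type) [Group G] : Prop :=
  ∀ K : Subgroup G, K.FG → ∃ m, B m ∧ VS m K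

/-- The main lemma for rank `m`. -/
def Sol (S : ∀ (G : Type) [Group G], Prop) (m : ℕ) : Prop :=
  ∀ (G : Type) [Group G], TorsionFree G → ∀ H : Subgroup G, H.FG → VS m H →
    ∃ (L : Type) (_ : Group L) (π : L →* G) (s : G → L), KLHull S L ∧ IsBisection H π s

theorem TorsionFree.of_injective {G K : Type} [Group G] [Group K] (f : K →* G)
    (hf : Function.Injective f) (h : TorsionFree G) : TorsionFree K := by
  intro g hg
  have h1 : f g = 1 := h (f g) (f.isOfFinOrder hg)
  exact hf (h1.trans (map_one f).symm)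

theorem fg_map {G K : Type} [Group G] [Group K] (f : K →* G) {L : Subgroup K} (hL : L.FG) :
    (L.map f).FG := by
  classical
  obtain ⟨S, hS⟩ := hL
  exact ⟨S.image f, by rw [Finset.coe_image, ← MonoidHom.map_closure, hS]⟩

theorem VS.small {n : ℕ} {G : Type} [Group G] (hfg : Group.FG G) (h : VS n G) (K : Subgroup G)
    (hK : ¬ K.FiniteIndex) : ∃ m, m < n ∧ VS m K := by
  cases n with
  | zero =>
    have : Finite G := h
    exact absurd (inferInstance : K.FiniteIndex) hK
  | succ n =>
    rcases Desc.fgi hfg h K with h1 | h1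
    · exact absurd h1 hK
    · exact ⟨n, Nat.lt_succ_self n, h1⟩

theorem VSol.exists_rank {G : Type} [Group G] (h : VSol G) : ∃ n, VS n G := by
  induction h with
  | @trivial G _ h => exact ⟨0, (inferInstance : Finite G)⟩
  | @step G _ N _ hN h ih =>
    obtain ⟨n, hn⟩ := ih
    rcases h with h | h
    · exact ⟨n, VS.of_finiteIndex N (Subgroup.finiteIndex_iff_finite_quotient.2 h) hn⟩
    · obtain ⟨f, hf⟩ := h
      refine ⟨n + 1, VS.succ_of_hom (f.comp (QuotientGroup.mk' N)) ?_⟩
      have h1 : (f.comp (QuotientGroup.mk' N)).ker ≤ N := by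
        intro x hx
        have h2 : f (QuotientGroup.mk' N x) = 1 := hx
        have h3 : QuotientGroup.mk' N x = 1 := hf (h2.trans (map_one f).symm)
        exact (QuotientGroup.eq_one_iff x).1 h3
      exact VS.of_injective (Subgroup.inclusion h1) (Subgroup.inclusion_injective h1) hn

theorem VSol.of_injective {G : Type} [Group G] (h : VSol G) :
    ∀ {K : Type} [Group K] (f : K →* G), Function.Injective f → VSol K := by
  induction h with
  | trivial h =>
    intro K _ f hf
    exact VSol.trivial hf.subsingleton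
  | @step G _ N _ hN h ih =>
    intro K _ f hf
    have h1 : VSol (N.comap f) := by
      refine ih (f.subgroupComap N) ?_
      intro a b hab
      exact Subtype.ext (hf (congrArg Subtype.val hab))
    refine VSol.step (N.comap f) h1 ?_
    have hinj : Function.Injective (QuotientGroup.map (N.comap f) N f le_rfl) := by
      rw [← MonoidHom.ker_eq_bot_iff, eq_bot_iff]
      intro x hx
      obtain ⟨k, rfl⟩ := QuotientGroup.mk_surjective x
      rw [MonoidHom.mem_ker, QuotientGroup.map_mk, QuotientGroup.eq_one_iff] at hx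
      rw [Subgroup.mem_bot, QuotientGroup.eq_one_iff]
      exact hx
    rcases h with h | ⟨q, hq⟩
    · exact Or.inl (Finite.of_injective _ hinj)
    · exact Or.inr ⟨q.comp (QuotientGroup.map (N.comap f) N f le_rfl), hq.comp hinj⟩

theorem VS.vsol {n : ℕ} {G : Type} [Group G] (h : VS n G) : VSol G := by
  have hfin : ∀ {G : Type} [Group G] (K : Subgroup G), K.FiniteIndex → VSol K → VSol G := by
    intro G _ K hK h
    refine VSol.step K.normalCore ?_ (Or.inl inferInstance)
    exact h.of_injective (Subgroup.inclusion K.normalCore_le) (Subgroup.inclusion_injective _)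
  induction n generalizing G with
  | zero =>
    have : Finite G := h
    exact hfin ⊥ inferInstance (VSol.trivial inferInstance)
  | succ n ih =>
    obtain ⟨K, hK, lam, h1⟩ := h
    exact hfin K hK (VSol.step lam.ker (ih h1) (Or.inr
      ⟨QuotientGroup.kerLift lam, QuotientGroup.kerLift_injective lam⟩))

theorem KLHull.of_locally {G : Type} [Group G]
    (h : ∀ K : Subgroup G, K.FG → KLHull S K) : KLHull S G := by
  classical
  refine KLHull.colimit (ι := Finset G) (fun S => Subgroup.closure (S : Set G))
    (fun S T hST => Subgroup.inclusion (Subgroup.closure_mono (by exact_mod_cast hST)))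
    (fun S => (Subgroup.closure (S : Set G)).subtype) ?_ ?_ ?_ ?_ ?_ (fun S => h _ ⟨S, rfl⟩)
  · intro i x; rfl
  · intro i j k hij hjk x; rfl
  · intro i j hij x; rfl
  · intro y
    exact ⟨{y}, ⟨y, Subgroup.subset_closure (by simp)⟩, rfl⟩
  · intro i x hx
    refine ⟨i, le_rfl, ?_⟩
    ext
    exact hx

theorem KLHull.of_comm {n : ℕ} {G V : Type} [Group G] [MulAction G V] {T : SimpleGraph V}
    (ht : TorsionFree G) (hT : IsTreeAction G V T) (hV : ∀ v : V, VS n (MulAction.stabilizer G v))
    (hc : ∀ u v : V, T.Adj u v →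
      (MulAction.stabilizer G u).relIndex (MulAction.stabilizer G v) ≠ 0) : KLHull S G := by
  refine KLHull.fj ht (Pool.Agent.Biset.fis (isFJClass_fjHull IsGLQ)
    (fun m => FJHull.base ⟨m, ⟨MulEquiv.refl _⟩⟩) n hT.tree hT.adj
    (fun g u v h h1 h2 => hT.noInv g u v h h1 h2) ?_ hV hc)
  intro g m hm hg
  exact ht g (isOfFinOrder_iff_pow_eq_one.2 ⟨m, hm, hg⟩)

theorem KLHull.of_vs {n : ℕ} {G : Type} [Group G] (ht : TorsionFree G) (hn : VS n G) :
    KLHull S G := by
  have hs : Subsingleton (G ⧸ (⊤ : Subgroup G)) := QuotientGroup.subsingleton_quotient_top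
  refine KLHull.of_comm (n := n) (V := G ⧸ (⊤ : Subgroup G)) (T := ⊥) ht ⟨?_, ?_, ?_⟩ ?_ ?_
  · exact ⟨{ preconnected := fun x y => by rw [Subsingleton.elim x y],
             nonempty := ⟨((1 : G) : G ⧸ (⊤ : Subgroup G))⟩ }, isAcyclic_bot⟩
  · intro g u v h; exact absurd h (by simp)
  · intro g u v h; exact absurd h (by simp)
  · intro v
    exact VS.of_injective (MulAction.stabilizer G v).subtype Subtype.val_injective hn
  · intro u v h; exact absurd h (by simp)

theorem KLHull.of_lv {B : ℕ → Prop} {G : Type} [Group G] (ht : TorsionFree G) (h : LV B G) :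
    KLHull S G := by
  refine KLHull.of_locally fun K hK => ?_
  obtain ⟨m, -, hm⟩ := h K hK
  exact KLHull.of_vs (TorsionFree.of_injective K.subtype K.subtype_injective ht) hm

theorem LV.of_injective {B : ℕ → Prop} {G K : Type} [Group G] [Group K] (f : K →* G)
    (hf : Function.Injective f) (h : LV B G) : LV B K := by
  intro L hL
  obtain ⟨m, hm, h1⟩ := h (L.map f) (fg_map f hL)
  refine ⟨m, hm, VS.of_injective (L.equivMapOfInjective f hf).toMonoidHom
    (L.equivMapOfInjective f hf).injective h1⟩

theorem LV.of_finiteIndex {B : ℕ → Prop} {G : Type} [Group G] (K : Subgroup G)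
    (hK : K.FiniteIndex) (h : LV B K) : LV B G := by
  intro L hL
  have hLfg : Group.FG L := (Group.fg_iff_subgroup_fg _).2 hL
  have h1 : (K.subgroupOf L).FiniteIndex := inferInstance
  have h2 : Group.FG (K.subgroupOf L) := (K.subgroupOf L).fg_of_index_ne_zero
  let f : (K.subgroupOf L) →* K :=
    (L.subtype.comp (K.subgroupOf L).subtype).codRestrict K fun x => x.2
  have hf : Function.Injective f := by
    intro x y hxy
    exact Subtype.ext (Subtype.ext (congrArg (fun z : K => (z : G)) hxy))
  have h3 : f.range.FG := by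
    rw [MonoidHom.range_eq_map]
    exact fg_map f (Group.fg_def.1 h2)
  obtain ⟨m, hm, h4⟩ := h f.range h3
  refine ⟨m, hm, VS.of_finiteIndex (K.subgroupOf L) h1 ?_⟩
  exact VS.of_injective (MonoidHom.ofInjective hf).toMonoidHom (MonoidHom.ofInjective hf).injective
    h4

theorem LV.of_vp {B : ℕ → Prop} {m : ℕ} (hm : B m) {G : Type} [Group G] (h : VS m G) : LV B G :=
  fun K _ => ⟨m, hm, VS.of_injective K.subtype K.subtype_injective h⟩

/-- Trees with small edge stabilizers. -/
theorem levelB {B : ℕ → Prop} (hB : ∀ m, B m → Sol S m) {G V : Type} [Group G] [MulAction G V]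
    {T : SimpleGraph V} (ht : TorsionFree G) (hT : IsTreeAction G V T)
    (hV : ∀ v : V, KLHull S (MulAction.stabilizer G v))
    (hE : ∀ p q, T.Adj p q →
      LV B (MulAction.stabilizer G p ⊓ MulAction.stabilizer G q : Subgroup G)) :
    KLHull S G := by
  have key : ∀ i : {H : Subgroup G // H.FG ∧ ∃ m, B m ∧ VS m H},
      ∃ (L : Type) (_ : Group L) (π : L →* G) (s : G → L), KLHull S L ∧ IsBisection i.1 π s := by
    intro i
    obtain ⟨hfg, m, hm, h⟩ := i.2
    exact hB m hm G ht i.1 hfg h
  choose L instL π s hL using key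
  refine KLHull.tree T ht hT hV L (fun i => (hL i).1) π ?_
  intro p q hpq H hfg hH
  have hle : H ≤ MulAction.stabilizer G p ⊓ MulAction.stabilizer G q := fun h hh => hH h hh
  obtain ⟨m, hm, h1⟩ := hE p q hpq (H.subgroupOf _) ((Group.fg_iff_subgroup_fg _).1 (by
    have h2 : Group.FG H := (Group.fg_iff_subgroup_fg _).2 hfg
    exact Group.fg_of_surjective (f := (Subgroup.subgroupOfEquivOfLe hle).symm.toMonoidHom)
      (Subgroup.subgroupOfEquivOfLe hle).symm.surjective))
  have h3 : VS m H := VS.of_injective (Subgroup.subgroupOfEquivOfLe hle).symm.toMonoidHom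
    (Subgroup.subgroupOfEquivOfLe hle).symm.injective h1
  exact ⟨⟨H, hfg, m, hm, h3⟩, s _, (hL _).2⟩

section uc

variable {A : Type} [Group A] (C : Subgroup A) (D : Set A)

theorem torsionFree_Grp (hA : TorsionFree A) : TorsionFree (Grp C D) :=
  TorsionFree.of_injective _ (Grp C D).subtype_injective (torsionFree_W C D hA)

/-- conjugation by `b⁻¹` from the conjugate of `C` to `C` -/
theorem stab_inj {B : ℕ → Prop}
    (hsmall : ∀ d ∈ D, LV B (C ⊓ C.map (MulAut.conj d).toMonoidHom : Subgroup A))
    (e : Letter C D) :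
    LV B (MulAction.stabilizer A e.1.1 ⊓ MulAction.stabilizer A e.1.2 : Subgroup A) := by
  obtain ⟨a, b, h1, h2, h3⟩ := e.2
  rw [← h1, ← h2, stabilizer_coset, stabilizer_coset]
  refine LV.of_injective (G := (C ⊓ C.map (MulAut.conj (a⁻¹ * b)).toMonoidHom : Subgroup A))
    (((MulAut.conj a⁻¹).toMonoidHom.comp (Subgroup.subtype _)).codRestrict _ ?_) ?_ (hsmall _ h3)
  · rintro ⟨x, ⟨c, hc, hcx⟩, ⟨c', hc', hcx'⟩⟩
    have hcx1 : a * c * a⁻¹ = x := hcx
    have hcx2 : b * c' * b⁻¹ = x := hcx'
    refine ⟨?_, c', hc', ?_⟩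
    · show a⁻¹ * x * a⁻¹⁻¹ ∈ C
      rw [← hcx1]
      have : a⁻¹ * (a * c * a⁻¹) * a⁻¹⁻¹ = c := by group
      rw [this]
      exact hc
    · show a⁻¹ * b * c' * (a⁻¹ * b)⁻¹ = a⁻¹ * x * a⁻¹⁻¹
      rw [← hcx2]
      group
  · intro x y hxy
    have h4 : a⁻¹ * (x : A) * a⁻¹⁻¹ = a⁻¹ * (y : A) * a⁻¹⁻¹ := congrArg Subtype.val hxy
    exact Subtype.ext (mul_left_cancel (mul_right_cancel h4))

/-- The universal group is in the class. -/
theorem uc_mem {B : ℕ → Prop} (hB : ∀ m, B m → Sol S m) (hA : TorsionFree A) (hC : KLHull S C)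
    (hsmall : ∀ d ∈ D, LV B (C ⊓ C.map (MulAut.conj d).toMonoidHom : Subgroup A)) :
    KLHull S (Grp C D) := by
  refine levelB hB (torsionFree_Grp C D hA) (isTreeAction C D) ?_ ?_
  · intro u
    -- the projection to the stabilizer of the point below
    let f : MulAction.stabilizer (Grp C D) u →* MulAction.stabilizer A (below C D u) :=
      ((proj C D).comp (Subgroup.subtype _)).codRestrict _ fun x => proj_below C D x.2
    have hf : Function.Injective f := by
      rw [injective_iff_map_eq_one]
      intro x hx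
      exact Subtype.ext (eq_one_of_proj C D x.2 (congrArg Subtype.val hx))
    refine KLHull.sub f hf ?_
    rcases below_cases C D u with ⟨v, hv⟩ | ⟨e, he⟩
    · rw [hv]
      induction v using QuotientGroup.induction_on with
      | H b =>
        have h1 : MulAction.stabilizer A (Pt.ctr (b : A ⧸ C) : Pt C) =
            C.map (MulAut.conj b).toMonoidHom := by
          rw [← stabilizer_coset]
          ext x
          rw [MulAction.mem_stabilizer_iff, MulAction.mem_stabilizer_iff, smul_ctr, Pt.ctr.injEq]
        rw [h1]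
        exact KLHull.sub (C.equivMapOfInjective _ (MulAut.conj b).injective).symm.toMonoidHom
          (C.equivMapOfInjective _ (MulAut.conj b).injective).symm.injective hC
    · rw [he]
      refine KLHull.of_lv (B := B) (TorsionFree.of_injective _ (Subgroup.subtype_injective _) hA) ?_
      refine LV.of_finiteIndex ((MulAction.stabilizer A e.1.1).subgroupOf _)
        ⟨relIndex_pair C e.1.1 e.1.2⟩ ?_
      refine LV.of_injective (G := (MulAction.stabilizer A e.1.1 ⊓
          MulAction.stabilizer A e.1.2 : Subgroup A))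
        ((Subgroup.subtype _).comp (Subgroup.subtype _) |>.codRestrict _ ?_) ?_
        (stab_inj C D hsmall e)
      · rintro ⟨⟨x, hx⟩, hx1⟩
        have h1 : x • e.1.1 = e.1.1 := hx1
        have h2 : x • (Pt.mid e.1.1 e.1.2 : Pt C) = Pt.mid e.1.1 e.1.2 := hx
        refine ⟨h1, ?_⟩
        show x • e.1.2 = e.1.2
        rw [smul_mid, mid_eq_iff] at h2
        rcases h2 with h2 | h2
        · exact h2.2
        · rw [h2.2, ← h2.1, h1]
      · intro x y hxy
        have h3 : ((x : MulAction.stabilizer A (Pt.mid e.1.1 e.1.2 : Pt C)) : A) = (y : _) :=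
          congrArg (fun z : (MulAction.stabilizer A e.1.1 ⊓
            MulAction.stabilizer A e.1.2 : Subgroup A) => (z : A)) hxy
        exact Subtype.ext (Subtype.ext h3)
  · intro u u' huu
    obtain ⟨e, he⟩ := proj_edge C D huu
    refine LV.of_injective (G := (MulAction.stabilizer A e.1.1 ⊓
        MulAction.stabilizer A e.1.2 : Subgroup A))
      (((proj C D).comp (Subgroup.subtype _)).codRestrict _ ?_) ?_ (stab_inj C D hsmall e)
    · rintro ⟨x, hx1, hx2⟩
      have h1 := he x hx1 hx2
      exact ⟨congrArg (fun z : Letter C D => z.1.1) h1, congrArg (fun z : Letter C D => z.1.2) h1⟩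
    · rw [injective_iff_map_eq_one]
      rintro ⟨x, hx1, hx2⟩ hx
      exact Subtype.ext (eq_one_of_proj C D hx1 (congrArg Subtype.val hx))

/-- The case of a commensurated subgroup. -/
theorem level1 {n : ℕ} (hA : TorsionFree A) (hC : Commensurated C) (hn : VS n C) :
    KLHull S (Grp C D) := by
  have hR : VS n (inc C D).range := by
    refine VS.of_injective ((proj C D).comp (Subgroup.subtype _) |>.codRestrict C ?_) ?_ hn
    · rintro ⟨_, c, rfl⟩
      exact c.2
    · rintro ⟨_, c, rfl⟩ ⟨_, c', rfl⟩ h
      have h1 : (c : A) = c' := congrArg Subtype.val h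
      exact Subtype.ext (congrArg (inc C D) (Subtype.ext h1))
  refine KLHull.of_comm (n := n) (torsionFree_Grp C D hA) (isTreeAction C D) (fun u => ?_)
    (fun u v _ => ?_)
  · obtain ⟨-, h1⟩ := commensurable_stabilizer C D hC u
    refine VS.of_finiteIndex ((inc C D).range.subgroupOf (MulAction.stabilizer (Grp C D) u))
      ⟨h1⟩ ?_
    refine VS.of_injective (((MulAction.stabilizer (Grp C D) u).subtype.comp
      (Subgroup.subtype _)).codRestrict _ fun x => x.2) ?_ hR
    intro x y hxy
    exact Subtype.ext (Subtype.ext (congrArg (fun z : (inc C D).range => (z : Grp C D)) hxy))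
  · have h1 := commensurable_stabilizer C D hC u
    have h2 := commensurable_stabilizer C D hC v
    exact (h1.trans h2.symm).1

end uc

end Pool.Agent.OM
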