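import Pool.Agent.Lib.MP_98022b_om.Omega

/-!
# Groups which stabilize a finite set of vertices of a tree fix a vertex
-/

set_option autoImplicit false

namespace Pool.Agent.OM

open SimpleGraph MulAction
open scoped Pointwise

section

variable {V : Type} {T : SimpleGraph V}

private theorem adj_between (hT : T.IsTree) {a b : V} (hab : T.Adj a b) (v : V) :
    T.dist a v = T.dist b v + 1 ∨ T.dist b v = T.dist a v + 1 := by
  have h := hT.dist_eq_dist_add_one_of_adj v hab
  rw [T.dist_comm (u := v) (v := a), T.dist_comm (u := v) (v := b)] at h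
  exact h

private theorem closer_unique (hT : T.IsTree) {u v w w' : V} (hw : T.Adj v w) (hw' : T.Adj v w')
    (h : T.dist w u + 1 = T.dist v u) (h' : T.dist w' u + 1 = T.dist v u) : w = w' := by
  obtain ⟨p, hp⟩ := hT.connected.exists_walk_length_eq_dist w u
  obtain ⟨q, hq⟩ := hT.connected.exists_walk_length_eq_dist w' u
  have h1 : (SimpleGraph.Walk.cons hw p).IsPath := by
    apply SimpleGraph.Walk.isPath_of_length_eq_dist
    rw [SimpleGraph.Walk.length_cons, hp, h]
  have h2 : (SimpleGraph.Walk.cons hw' q).IsPath := by
    apply SimpleGraph.Walk.isPath_of_length_eq_dist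
    rw [SimpleGraph.Walk.length_cons, hq, h']
  have h3 := (hT.isAcyclic.subsingleton_path _ _).elim ⟨_, h1⟩ ⟨_, h2⟩
  have h4 : SimpleGraph.Walk.cons hw p = SimpleGraph.Walk.cons hw' q := Subtype.ext_iff.1 h3
  have h5 := congrArg (fun r => SimpleGraph.Walk.getVert r 1) h4
  simpa using h5

private theorem exists_closer (hT : T.IsTree) {u v : V} (h : v ≠ u) :
    ∃ w, T.Adj v w ∧ T.dist w u + 1 = T.dist v u := by
  obtain ⟨p, hp⟩ := hT.connected.exists_walk_length_eq_dist v u
  cases p with
  | nil => exact absurd rfl h
  | @cons _ w _ hadj q =>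
    rw [Walk.length_cons] at hp
    have h1 := dist_le q
    rcases adj_between hT hadj u with h2 | h2
    · exact ⟨w, hadj, h2.symm⟩
    · omega

/-- If the edge `c d` separates `v` and `b` then it is between them. -/
private theorem sep (hT : T.IsTree) {c d b : V} (hcd : T.Adj c d)
    (h2 : T.dist b d = T.dist b c + 1) :
    ∀ (k : ℕ) (v : V), T.dist v d = k → T.dist v c = T.dist v d + 1 →
      T.dist v b = T.dist v d + 1 + T.dist c b := by
  intro k
  induction k using Nat.strong_induction_on with
  | _ k ih =>
    intro v hk h1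
    have ecb : T.dist c b = T.dist b c := SimpleGraph.dist_comm
    by_cases hvd : v = d
    · subst hvd
      have e1 : T.dist v b = T.dist b v := SimpleGraph.dist_comm
      have e2 : T.dist v v = 0 := SimpleGraph.dist_self
      omega
    · obtain ⟨v', hadj, hv'⟩ := exists_closer hT hvd
      have t1 : T.dist v' c ≤ T.dist v' d + T.dist d c := hT.connected.dist_triangle
      have t2 : T.dist v c ≤ T.dist v v' + T.dist v' c := hT.connected.dist_triangle
      have t3 : T.dist v v' = 1 := SimpleGraph.dist_eq_one_iff_adj.2 hadj
      have t4 : T.dist d c = 1 := SimpleGraph.dist_eq_one_iff_adj.2 hcd.symm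
      have h1' : T.dist v' c = T.dist v' d + 1 := by omega
      have ih1 := ih (T.dist v' d) (by omega) v' rfl h1'
      rcases adj_between hT hadj b with h | h
      · omega
      · exfalso
        -- `v` is the neighbour of `v'` closer to `b`
        by_cases hv'd : v' = d
        · subst hv'd
          have e3 : T.dist v' v' = 0 := SimpleGraph.dist_self
          have e4 : T.dist v' b = T.dist b v' := SimpleGraph.dist_comm
          have h5 : v = c := closer_unique (u := b) (v := v') hT hadj.symm hcd.symm
            (by omega) (by omega)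
          subst h5
          have e5 : T.dist v v = 0 := SimpleGraph.dist_self
          omega
        · obtain ⟨v'', hadj', hv''⟩ := exists_closer hT hv'd
          have s1 : T.dist v'' c ≤ T.dist v'' d + T.dist d c := hT.connected.dist_triangle
          have s2 : T.dist v' c ≤ T.dist v' v'' + T.dist v'' c := hT.connected.dist_triangle
          have s3 : T.dist v' v'' = 1 := SimpleGraph.dist_eq_one_iff_adj.2 hadj'
          have h1'' : T.dist v'' c = T.dist v'' d + 1 := by omega
          have ih2 := ih (T.dist v'' d) (by omega) v'' rfl h1''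
          have h5 : v = v'' := closer_unique (u := b) (v := v') hT hadj.symm hadj'
            (by omega) (by omega)
          subst h5
          omega

end

section

variable {G V : Type} [Group G] [MulAction G V] {T : SimpleGraph V}

private theorem dist_smul_le (hT : IsTreeAction G V T) (g : G) (u v : V) :
    T.dist (g • u) (g • v) ≤ T.dist u v := by
  obtain ⟨w, hw⟩ := hT.tree.connected.exists_walk_length_eq_dist u v
  have h := T.dist_le (w.map (⟨fun x => g • x, fun {a b} h => hT.adj g a b h⟩ : T →g T))
  rw [SimpleGraph.Walk.length_map, hw] at h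
  exact h

/-- A group which stabilizes a finite set of vertices fixes a vertex. -/
theorem exists_fixed_vertex (hT : IsTreeAction G V T) {F : Set V} (hF : F.Finite)
    (hne : F.Nonempty) : ∃ v : V, ∀ g ∈ stabilizer G F, g • v = v := by
  classical
  let r : V → ℕ := fun x => hF.toFinset.sup fun a => T.dist x a
  have hle : ∀ x a, a ∈ F → T.dist x a ≤ r x := fun x a ha =>
    Finset.le_sup (f := fun a => T.dist x a) (hF.mem_toFinset.2 ha)
  obtain ⟨a₀, ha₀⟩ := hne
  have hex : ∃ n, ∃ x, r x = n := ⟨r a₀, a₀, rfl⟩
  obtain ⟨x, hx⟩ := Nat.find_spec hex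
  have hmin : ∀ y, r x ≤ r y := fun y => by
    rw [hx]
    exact Nat.find_min' hex ⟨y, rfl⟩
  -- two minimal vertices are adjacent
  have hadj : ∀ y z : V, r y = r x → r z = r x → y ≠ z → T.Adj y z := by
    intro y z hy hz hyz
    by_contra hn
    obtain ⟨w, hyw, hw⟩ := exists_closer hT.tree hyz
    have hwz : w ≠ z := fun h => hn (h ▸ hyw)
    have hpos : 0 < T.dist w z := hT.tree.connected.pos_dist_of_ne hwz
    have hrpos : 0 < r x := by
      by_contra h0
      have h1 : T.dist y a₀ = 0 := by
        have := hle y a₀ ha₀
        omega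
      have h2 : T.dist z a₀ = 0 := by
        have := hle z a₀ ha₀
        omega
      rw [hT.tree.connected.dist_eq_zero_iff] at h1 h2
      exact hyz (h1.trans h2.symm)
    have hlt : r w < r x := by
      refine (Finset.sup_lt_iff (by exact hrpos)).2 fun a ha => ?_
      have ha' : a ∈ F := hF.mem_toFinset.1 ha
      have h1 := hle y a ha'
      have h2 := hle z a ha'
      have h3 : T.dist z w = T.dist w z := SimpleGraph.dist_comm
      have h4 : T.dist z y = T.dist y z := SimpleGraph.dist_comm
      have h5 : T.dist a w = T.dist w a := SimpleGraph.dist_comm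
      have h6 : T.dist a y = T.dist y a := SimpleGraph.dist_comm
      rcases adj_between hT.tree hyw a with h | h
      · omega
      · have h7 := sep hT.tree (b := a) hyw (by omega) _ z rfl (by omega)
        omega
    have := hmin w
    omega
  have hr : ∀ g ∈ stabilizer G F, ∀ y, r y = r x → r (g • y) = r x := by
    intro g hg y hy
    refine le_antisymm ?_ (hmin _)
    rw [← hy]
    refine Finset.sup_le fun a ha => ?_
    have ha' : a ∈ F := hF.mem_toFinset.1 ha
    have h1 : g⁻¹ • a ∈ F := by
      have h2 : g⁻¹ • F = F := (stabilizer G F).inv_mem hg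
      rw [← h2]
      exact ⟨a, ha', rfl⟩
    have h3 := dist_smul_le hT g y (g⁻¹ • a)
    rw [smul_inv_smul] at h3
    exact h3.trans (hle y _ h1)
  refine ⟨x, fun g hg => ?_⟩
  by_contra hgx
  have h1 : r (g • x) = r x := hr g hg x rfl
  have h2 : T.Adj x (g • x) := hadj _ _ rfl h1 (Ne.symm hgx)
  have h3 : r (g • g • x) = r x := hr g hg _ h1
  have h4 : g • g • x ≠ x := hT.noInv g x (g • x) h2 rfl
  have h5 : g • x ≠ g • g • x := fun h => hgx (MulAction.injective g h).symm
  have h6 : T.Adj x (g • g • x) := hadj _ _ rfl h3 h4.symm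
  have h7 : T.Adj (g • x) (g • g • x) := hadj _ _ h1 h3 h5
  have e1 : T.dist x (g • g • x) = 1 := SimpleGraph.dist_eq_one_iff_adj.2 h6
  have e2 : T.dist (g • x) (g • g • x) = 1 := SimpleGraph.dist_eq_one_iff_adj.2 h7
  rcases adj_between hT.tree h2 (g • g • x) with h | h <;> omega

variable {S : ∀ (G : Type) [Group G], Prop}

end

end Pool.Agent.OM
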