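import Pool.Agent.Lib.MP_98022b_h66.Hull

/-!
# A class of groups closed under actions on trees with sections
-/

set_option autoImplicit false

namespace Pool.Agent.OM

open SimpleGraph Pool.Agent.FJ

/-- Groups without elements of finite order other than `1`. -/
def TorsionFree (G : Type) [Group G] : Prop := ∀ g : G, IsOfFinOrder g → g = 1

/-- Virtually solvable groups of finite rank: the smallest class of groups which contains the
trivial groups and contains `G` as soon as it contains a normal subgroup `N` of `G` such that
`G ⧸ N` is finite or isomorphic to a subgroup of the additive group `ℚ`. -/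
inductive VSol : ∀ (G : Type) [Group G], Prop
  | trivial {G : Type} [Group G] (h : Subsingleton G) : VSol G
  | step {G : Type} [Group G] (N : Subgroup G) [N.Normal] (hN : VSol N)
      (h : Finite (G ⧸ N) ∨ ∃ f : G ⧸ N →* Multiplicative ℚ, Function.Injective f) : VSol G

/-- The `G`-set `Ω` is tame: every infinite subset of `Ω` contains a finite set `F` such that all
finitely generated subgroups of `G` which fix the points of `F` are virtually solvable of finite
rank. -/
def Tame (G Ω : Type) [Group G] [MulAction G Ω] : Prop :=
  ∀ X : Set Ω, X.Infinite → ∃ F : Finset Ω, (F : Set Ω) ⊆ X ∧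
    ∀ K : Subgroup G, K.FG → (∀ k ∈ K, ∀ a ∈ F, k • a = a) → VSol K

/-- `G` acts on the tree `T` with vertex set `V` by automorphisms, without inversions. -/
structure IsTreeAction (G V : Type) [Group G] [MulAction G V] (T : SimpleGraph V) : Prop where
  tree : T.IsTree
  adj : ∀ (g : G) (u v : V), T.Adj u v → T.Adj (g • u) (g • v)
  noInv : ∀ (g : G) (u v : V), T.Adj u v → g • u = v → g • v ≠ u

/-- The groups `GL_m(ℚ)`. -/
def IsGLQ (G : Type) [Group G] : Prop :=
  ∃ m : ℕ, Nonempty (G ≃* Matrix.GeneralLinearGroup (Fin m) ℚ)

/-- `s` is a section of `π : L → G` which commutes with inversion and with the multiplication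
by elements of `H` on both sides. -/
def IsBisection {L G : Type} [Group L] [Group G] (H : Subgroup G) (π : L →* G) (s : G → L) :
    Prop :=
  (∀ g, π (s g) = g) ∧ (∀ g, s g⁻¹ = (s g)⁻¹) ∧
    ∀ h ∈ H, ∀ g, s (h * g) = s h * s g ∧ s (g * h) = s g * s h

/-- The smallest class of groups which contains the class `B` and the torsion-free groups of the
class `FJHull IsGLQ` and is closed under preimages of homomorphisms with free kernel, directed
colimits and certain actions on trees. -/
inductive KLHull (B : ∀ (G : Type) [Group G], Prop) : ∀ (G : Type) [Group G], Prop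
  /-- the groups of the class `B` -/
  | base {G : Type} [Group G] (h : B G) : KLHull B G
  /-- torsion-free groups of the smallest class containing `GL_m(ℚ)`, `ℤ` and closed under
  subgroups, finite-index overgroups, products, free products, directed colimits, extensions -/
  | fj {G : Type} [Group G] (ht : TorsionFree G) (h : FJHull IsGLQ G) : KLHull B G
  /-- groups `L` with a homomorphism to a group of the class with free kernel; in particular
  subgroups and extensions with free kernel -/
  | free {L G : Type} [Group L] [Group G] (π : L →* G) (hπ : IsFreeGroup π.ker)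
      (h : KLHull B G) : KLHull B L
  /-- directed colimits: `L` is the colimit of the directed system `(G i, f i j)` with canonical
  maps `g i` -/
  | colimit {ι : Type} [Preorder ι] [IsDirectedOrder ι] [Nonempty ι]
      (G : ι → Type) [∀ i, Group (G i)] (f : ∀ i j, i ≤ j → G i →* G j)
      {L : Type} [Group L] (g : ∀ i, G i →* L)
      (h1 : ∀ i x, f i i le_rfl x = x)
      (h2 : ∀ i j k (hij : i ≤ j) (hjk : j ≤ k) x,
        f j k hjk (f i j hij x) = f i k (hij.trans hjk) x)
      (h3 : ∀ i j (hij : i ≤ j) x, g j (f i j hij x) = g i x)
      (h4 : ∀ y, ∃ i x, g i x = y)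
      (h5 : ∀ i x, g i x = 1 → ∃ j, ∃ hij : i ≤ j, f i j hij x = 1)
      (h : ∀ i, KLHull B (G i)) : KLHull B L
  /-- actions on trees: `G` is torsion-free and acts on a tree without inversions with vertex
  stabilizers in the class; `L i` is a family of groups of the class with homomorphisms `π i` to
  `G`; for each edge `{p, q}` and each finitely generated subgroup `H` of its stabilizer there are
  an `i` and a section `G → L i` of `π i` which commutes with inversion and with the
  multiplication by elements of `H` on both sides -/
  | tree {G V : Type} [Group G] [MulAction G V] (T : SimpleGraph V) (ht : TorsionFree G)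
      (hT : IsTreeAction G V T) (hV : ∀ v : V, KLHull B (MulAction.stabilizer G v))
      {ι : Type} (L : ι → Type) [∀ i, Group (L i)] (hL : ∀ i, KLHull B (L i))
      (π : ∀ i, L i →* G)
      (hs : ∀ p q, T.Adj p q → ∀ H : Subgroup G, H.FG → (∀ h ∈ H, h • p = p ∧ h • q = q) →
        ∃ (i : ι) (s : G → L i), IsBisection H (π i) s) : KLHull B G

/-- The good pairs `(D, H)` of subgroups `H ≤ D` of `G`: the smallest relation with the following
three properties. -/
inductive Good (B : ∀ (G : Type) [Group G], Prop) {G : Type} [Group G] :
    Subgroup G → Subgroup G → Prop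
  /-- `(D, H)` is good if `H` is virtually solvable of finite rank -/
  | small {D H : Subgroup G} (hHD : H ≤ D) (h : VSol H) : Good B D H
  /-- `(D, H)` is good if some homomorphism from `D` to a group of the class `KLHull B` is
  injective on `H` -/
  | hom {D H : Subgroup G} (hHD : H ≤ D) {Q : Type} [Group Q] (hQ : KLHull B Q) (ρ : D →* Q)
      (hρ : ∀ x : D, (x : G) ∈ H → ρ x = 1 → x = 1) : Good B D H
  /-- `(D, H)` is good if there is `D'` with `H ≤ D' ≤ D` such that `(D', H)` is good and `(D, K)`
  is good for all finitely generated subgroups `K` of `H ∩ g H g⁻¹` for all `g` in `D` but not in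
  `D'` -/
  | glue {D D' H : Subgroup G} (hHD : H ≤ D') (hD : D' ≤ D) (h1 : Good B D' H)
      (h2 : ∀ g ∈ D, g ∉ D' → ∀ K : Subgroup G, K.FG → (∀ k ∈ K, k ∈ H ∧ g⁻¹ * k * g ∈ H) →
        Good B D K) : Good B D H

/-- Subgroups. -/
theorem KLHull.sub {B : ∀ (G : Type) [Group G], Prop} {G H : Type} [Group G] [Group H]
    (f : G →* H) (hf : Function.Injective f) (h : KLHull B H) : KLHull B G := by
  refine KLHull.free f ?_ h
  have h1 : Subsingleton f.ker := by
    rw [(MonoidHom.ker_eq_bot_iff f).2 hf]
    infer_instance
  exact IsFreeGroup.ofMulEquiv (G := FreeGroup Empty)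
    { toFun := fun _ => 1
      invFun := fun _ => 1
      left_inv := fun _ => Subsingleton.elim _ _
      right_inv := fun _ => Subsingleton.elim _ _
      map_mul' := fun _ _ => Subsingleton.elim _ _ }

end Pool.Agent.OM
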