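import Pool.Agent.Lib.MP_98022b_om.Defs
import Pool.Agent.Lib.MP_98022b_ab.Cayley

/-!
# Groups acting freely on trees are free
-/

set_option autoImplicit false

namespace Pool.Agent.OM

open SimpleGraph MulAction

section

variable (N : Type) {V : Type} [Group N] [MulAction N V] {T : SimpleGraph V}

/-- The orbit of a pair of vertices. -/
def lb (u v : V) : orbitRel.Quotient N (V × V) := Quotient.mk _ (u, v)

theorem lb_smul (g : N) (u v : V) : lb N (g • u) (g • v) = lb N u v :=
  Quotient.sound ⟨g, rfl⟩

theorem exists_of_lb {u v u' v' : V} (h : lb N u v = lb N u' v') :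
    ∃ g : N, g • u' = u ∧ g • v' = v := by
  obtain ⟨g, hg⟩ := Quotient.exact h
  have hg' : g • (u', v') = (u, v) := hg
  exact ⟨g, congrArg Prod.fst hg', congrArg Prod.snd hg'⟩

/-- The word of a walk. -/
def wordOf : ∀ {u v : V}, T.Walk u v → List (orbitRel.Quotient N (V × V) × Bool)
  | _, _, Walk.nil => []
  | u, _, @Walk.cons _ _ _ x _ _ p => (lb N u x, true) :: (lb N x u, false) :: wordOf p

theorem wordOf_append {u v w : V} (p : T.Walk u v) (q : T.Walk v w) :
    wordOf N (p.append q) = wordOf N p ++ wordOf N q := by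
  induction p with
  | nil => rfl
  | cons h p ih =>
    rw [Walk.cons_append]
    show _ :: _ :: wordOf N (p.append q) = _
    rw [ih]
    rfl

theorem wordOf_map (φ : T →g T) (g : N) (hφ : ∀ v, φ v = g • v) {u v : V} (p : T.Walk u v) :
    wordOf N (p.map φ) = wordOf N p := by
  induction p with
  | nil => rfl
  | @cons u x v h p ih =>
    rw [Walk.map_cons]
    show (lb N (φ u) (φ x), true) :: (lb N (φ x) (φ u), false) :: wordOf N (p.map φ) = _
    rw [ih, hφ, hφ, lb_smul, lb_smul]
    rfl

theorem wordOf_copy {u v u' v' : V} (p : T.Walk u v) (hu : u = u') (hv : v = v') :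
    wordOf N (p.copy hu hv) = wordOf N p := by
  subst hu hv
  rfl

variable {N}

theorem wordOf_reduced (hT : IsTreeAction N V T) (hfree : ∀ (g : N) (v : V), g • v = v → g = 1)
    {u v : V} (p : T.Walk u v) (hp : p.IsPath) : FreeGroup.IsReduced (wordOf N p) := by
  have h0 : ∀ u x : V, T.Adj u x → lb N u x ≠ lb N x u := by
    intro u x hux h
    obtain ⟨g, h1, h2⟩ := exists_of_lb N h
    exact hT.noInv g u x hux h2 h1
  induction p with
  | nil => exact FreeGroup.IsReduced.nil
  | @cons u x v h p ih =>
    have hp' : p.IsPath := hp.of_cons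
    have ih' := ih hp'
    show FreeGroup.IsReduced ((lb N u x, true) :: (lb N x u, false) :: wordOf N p)
    rw [FreeGroup.isReduced_cons_cons]
    refine ⟨fun h1 => absurd h1 (h0 u x h), ?_⟩
    cases p with
    | nil => exact FreeGroup.IsReduced.singleton
    | @cons _ y _ h' q =>
      show FreeGroup.IsReduced ((lb N x u, false) :: (lb N x y, true) :: (lb N y x, false) ::
        wordOf N q)
      rw [FreeGroup.isReduced_cons_cons]
      refine ⟨fun h1 => ?_, ih'⟩
      obtain ⟨g, h2, h3⟩ := exists_of_lb N (show lb N x u = lb N x y from h1)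
      have h4 : g = 1 := hfree g x h2
      rw [h4, one_smul] at h3
      exfalso
      rw [Walk.cons_isPath_iff] at hp
      apply hp.2
      rw [← h3, Walk.support_cons]
      exact List.mem_cons_of_mem _ q.start_mem_support

/-- The value of a walk. -/
def valOf (N : Type) [Group N] [MulAction N V] {u v : V} (p : T.Walk u v) :
    FreeGroup (orbitRel.Quotient N (V × V)) := FreeGroup.mk (wordOf N p)

theorem valOf_append {u v w : V} (p : T.Walk u v) (q : T.Walk v w) :
    valOf N (p.append q) = valOf N p * valOf N q := by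
  rw [valOf, wordOf_append, ← FreeGroup.mul_mk]
  rfl

theorem exists_path_val (hT : T.IsTree) {u v : V} (p : T.Walk u v) :
    ∃ q : T.Walk u v, q.IsPath ∧ valOf N q = valOf N p := by
  classical
  induction p with
  | nil => exact ⟨Walk.nil, Walk.IsPath.nil, rfl⟩
  | @cons u x v h p ih =>
    obtain ⟨q, hq, hqp⟩ := ih
    have h1 : valOf N (Walk.cons h p) = valOf N (Walk.cons h Walk.nil) * valOf N p := by
      rw [← valOf_append]
      rfl
    by_cases hu : u ∈ q.support
    · refine ⟨q.dropUntil u hu, hq.dropUntil hu, ?_⟩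
      have h2 : q.takeUntil u hu = Walk.cons h.symm Walk.nil := by
        have h3 : (Walk.cons h.symm Walk.nil : T.Walk x u).IsPath := by
          rw [Walk.cons_isPath_iff]
          refine ⟨Walk.IsPath.nil, ?_⟩
          rw [Walk.support_nil, List.mem_singleton]
          exact h.ne'
        exact congrArg Subtype.val (hT.isAcyclic.path_unique ⟨_, hq.takeUntil hu⟩ ⟨_, h3⟩)
      have h3 : valOf N q = valOf N (Walk.cons h.symm Walk.nil : T.Walk x u) *
          valOf N (q.dropUntil u hu) := by
        rw [← h2, ← valOf_append, Walk.take_spec]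
      rw [h1, ← hqp, h3, ← mul_assoc]
      have h4 : valOf N (Walk.cons h Walk.nil : T.Walk u x) *
          valOf N (Walk.cons h.symm Walk.nil : T.Walk x u) = 1 := by
        have e1 : valOf N (Walk.cons h Walk.nil : T.Walk u x) =
          FreeGroup.of (lb N u x) * (FreeGroup.of (lb N x u))⁻¹ := rfl
        have e2 : valOf N (Walk.cons h.symm Walk.nil : T.Walk x u) =
          FreeGroup.of (lb N x u) * (FreeGroup.of (lb N u x))⁻¹ := rfl
        rw [e1, e2]
        group
      rw [h4, one_mul]
    · refine ⟨Walk.cons h q, (Walk.cons_isPath_iff h q).2 ⟨hq, hu⟩, ?_⟩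
      have h2 : valOf N (Walk.cons h q) = valOf N (Walk.cons h Walk.nil) * valOf N q := by
        rw [← valOf_append]
        rfl
      rw [h1, h2, hqp]

theorem valOf_eq (hT : T.IsTree) {u v : V} (p q : T.Walk u v) : valOf N p = valOf N q := by
  obtain ⟨p', hp', h1⟩ := exists_path_val (N := N) hT p
  obtain ⟨q', hq', h2⟩ := exists_path_val (N := N) hT q
  have h3 : p' = q' := congrArg Subtype.val (hT.isAcyclic.path_unique ⟨_, hp'⟩ ⟨_, hq'⟩)
  rw [← h1, ← h2, h3]

/-- A group which acts freely and without inversions on a tree is free. -/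
theorem isFreeGroup_of_freeAction (hT : IsTreeAction N V T)
    (hfree : ∀ (g : N) (v : V), g • v = v → g = 1) : IsFreeGroup N := by
  obtain ⟨v₀⟩ := hT.tree.connected.nonempty
  let w : ∀ v : V, T.Walk v₀ v := fun v => (hT.tree.connected.preconnected v₀ v).some
  have hmul : ∀ g h : N, valOf N (w ((g * h) • v₀)) = valOf N (w (g • v₀)) * valOf N (w (h • v₀)) := by
    intro g h
    let φ : T →g T := ⟨fun v => g • v, fun {a b} hab => hT.adj g a b hab⟩
    have h1 : valOf N (((w (h • v₀)).map φ).copy (v' := (g * h) • v₀) rfl (mul_smul g h v₀).symm) =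
        valOf N (w (h • v₀)) := by
      rw [valOf, wordOf_copy, wordOf_map N φ g (fun v => rfl)]
      rfl
    rw [← h1, ← valOf_append]
    exact valOf_eq hT.tree _ _
  let φ : N →* FreeGroup (orbitRel.Quotient N (V × V)) :=
    MonoidHom.mk' (fun g => valOf N (w (g • v₀))) hmul
  have hφ : Function.Injective φ := by
    rw [injective_iff_map_eq_one]
    intro g hg
    have hg' : valOf N (w (g • v₀)) = 1 := hg
    obtain ⟨q, hq, h1⟩ := exists_path_val (N := N) hT.tree (w (g • v₀))
    rw [hg'] at h1
    by_contra hne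
    have hne' : g • v₀ ≠ v₀ := fun h => hne (hfree g v₀ h)
    refine Biset.mk_ne_one (wordOf_reduced hT hfree q hq) ?_ h1
    generalize g • v₀ = v at q hq h1 hne'
    cases q with
    | nil => exact absurd rfl hne'
    | cons h q => exact List.cons_ne_nil _ _
  exact IsFreeGroup.ofMulEquiv (MonoidHom.ofInjective hφ).symm

end

end Pool.Agent.OM
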