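import Pool.Agent.Lib.MP_98022b_om.Omega

/-!
# The two level construction
-/

set_option autoImplicit false

namespace Pool.Agent.OM.Lvl

open SimpleGraph Pool.Agent.FJ Pool.Agent.OM Pool.Agent.OM.UC
open Pool.Agent.Biset hiding TorsionFree
open scoped Pointwise

variable {S : ∀ (G : Type) [Group G], Prop}

section level2

variable {G : Type} [Group G] (H D : Subgroup G)

/-- `H` as a subgroup of its commensurator. -/
def H1 : Subgroup (D) := H.subgroupOf (D)

/-- The letters of the first level. -/
def D1 : Set (D) := {d | d ∉ H1 H D}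

theorem letter1 : IsLetterSet (H1 H D) (D1 H D) where
  inv d hd h := hd (by rw [← inv_inv d]; exact inv_mem h)
  mul_left c hc d hd h := hd (by
    have := mul_mem (inv_mem hc) h
    rwa [inv_mul_cancel_left] at this)
  mul_right c hc d hd h := hd (by
    have := mul_mem h (inv_mem hc)
    rwa [mul_inv_cancel_right] at this)
  notMem d hd := hd

/-- The letters of the first level in the big group. -/
def D0 : Set G := {g | g ∈ D ∧ g ∉ H}

/-- The map on cosets. -/
def cosetMap : D ⧸ H1 H D → G ⧸ H :=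
  Quotient.map' (D).subtype (by
    intro a b h
    rw [QuotientGroup.leftRel_apply] at h ⊢
    exact h)

theorem cosetMap_mk (c : D) : cosetMap H D (c : D ⧸ H1 H D) = ((c : G) : G ⧸ H) := rfl

theorem cosetMap_injective : Function.Injective (cosetMap H D) := by
  intro a b h
  induction a using QuotientGroup.induction_on with
  | H a =>
  induction b using QuotientGroup.induction_on with
  | H b =>
  rw [cosetMap_mk, cosetMap_mk, QuotientGroup.eq] at h
  exact QuotientGroup.eq.2 h

theorem cosetMap_smul (g : D) (v : D ⧸ H1 H D) :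
    cosetMap H D (g • v) = (g : G) • cosetMap H D v := by
  induction v using QuotientGroup.induction_on with
  | H v => rfl

/-- The map on letters. -/
def iota (e : Letter (H1 H D) (D1 H D)) : Letter H (D0 H D) :=
  ⟨(cosetMap H D e.1.1, cosetMap H D e.1.2), by
    obtain ⟨a, b, h1, h2, h3⟩ := e.2
    refine ⟨a, b, ?_, ?_, ?_⟩
    · rw [← cosetMap_mk, h1]
    · rw [← cosetMap_mk, h2]
    · exact ⟨(a⁻¹ * b).2, h3⟩⟩

theorem iota_injective : Function.Injective (iota H D) := by
  intro e e' h
  have h1 := congrArg (fun x => x.1.1) h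
  have h2 := congrArg (fun x => x.1.2) h
  exact Subtype.ext (Prod.ext (cosetMap_injective H D h1) (cosetMap_injective H D h2))

theorem iota_smul (g : D) (e : Letter (H1 H D) (D1 H D)) :
    iota H D (g • e) = (g : G) • iota H D e :=
  Subtype.ext (Prod.ext (cosetMap_smul H D g e.1.1) (cosetMap_smul H D g e.1.2))

/-- The inclusion of the first level. -/
def J : W (H1 H D) (D1 H D) →* W H (D0 H D) :=
  SemidirectProduct.map (FreeGroup.map (iota H D)) (D).subtype (by
    intro g
    refine FreeGroup.ext_hom _ _ fun e => ?_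
    show FreeGroup.map (iota H D) (act _ _ g (FreeGroup.of e)) =
      act H (D0 H D) (g : G) (FreeGroup.map (iota H D) (FreeGroup.of e))
    rw [act_of, FreeGroup.map.of, FreeGroup.map.of, act_of, iota_smul])

theorem J_left (x : W (H1 H D) (D1 H D)) : (J H D x).left = FreeGroup.map (iota H D) x.left := rfl
theorem J_right (x : W (H1 H D) (D1 H D)) : (J H D x).right = (x.right : G) := rfl

theorem J_injective : Function.Injective (J H D) := by
  intro x y h
  have h1 := congrArg SemidirectProduct.left h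
  have h2 := congrArg SemidirectProduct.right h
  rw [J_left, J_left] at h1
  rw [J_right, J_right] at h2
  exact SemidirectProduct.ext (FreeGroup.map_injective (iota_injective H D) h1) (Subtype.ext h2)

/-- The group of the first level in the big group. -/
noncomputable def C2 : Subgroup (W H (D0 H D)) := (Grp (H1 H D) (D1 H D)).map (J H D)

theorem C2_right {x : W H (D0 H D)} (hx : x ∈ C2 H D) : x.right ∈ D := by
  obtain ⟨y, -, rfl⟩ := hx
  exact y.right.2

/-- The letters of the second level. -/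
def D2 : Set (W H (D0 H D)) :=
  {x | ∃ c ∈ C2 H D, ∃ c' ∈ C2 H D, ∃ d : G, d ∉ D ∧ x = c * SemidirectProduct.inr d * c'}

theorem aux_inv {K : Type} [Group K] (c d c' : K) : (c * d * c')⁻¹ = c'⁻¹ * d⁻¹ * c⁻¹ := by
  group

theorem aux_left {K : Type} [Group K] (a c d c' : K) : a * (c * d * c') = a * c * d * c' := by
  group

theorem aux_right {K : Type} [Group K] (a c d c' : K) : c * d * c' * a = c * d * (c' * a) := by
  group

theorem D2_inv {x : W H (D0 H D)} (hx : x ∈ D2 H D) : x⁻¹ ∈ D2 H D := by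
  obtain ⟨c, hc, c', hc', d, hd, h⟩ := hx
  refine ⟨c'⁻¹, inv_mem hc', c⁻¹, inv_mem hc, d⁻¹, fun h => hd ?_, ?_⟩
  · rw [← inv_inv d]; exact inv_mem h
  · rw [map_inv, h]; exact aux_inv _ _ _

theorem D2_left {a x : W H (D0 H D)} (ha : a ∈ C2 H D) (hx : x ∈ D2 H D) : a * x ∈ D2 H D := by
  obtain ⟨c, hc, c', hc', d, hd, h⟩ := hx
  exact ⟨a * c, mul_mem ha hc, c', hc', d, hd, by rw [h]; exact aux_left _ _ _ _⟩

theorem D2_right {a x : W H (D0 H D)} (ha : a ∈ C2 H D) (hx : x ∈ D2 H D) : x * a ∈ D2 H D := by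
  obtain ⟨c, hc, c', hc', d, hd, h⟩ := hx
  exact ⟨c, hc, c' * a, mul_mem hc' ha, d, hd, by rw [h]; exact aux_right _ _ _ _⟩

theorem D2_notMem {x : W H (D0 H D)} (hx : x ∈ D2 H D) : x ∉ C2 H D := by
  obtain ⟨c, hc, c', hc', d, hd, h⟩ := hx
  intro hx
  apply hd
  have h0 : x.right = c.right * d * c'.right := by
    rw [h, SemidirectProduct.mul_right, SemidirectProduct.mul_right,
      SemidirectProduct.right_inr]
  have h1 : c.right * d * c'.right ∈ D := by
    rw [← h0]
    exact C2_right H D hx
  have h2 := mul_mem (mul_mem (inv_mem (C2_right H D hc)) h1) (inv_mem (C2_right H D hc'))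
  have h3 : c.right⁻¹ * (c.right * d * c'.right) * c'.right⁻¹ = d := by group
  rwa [h3] at h2

theorem letter2 : IsLetterSet (C2 H D) (D2 H D) :=
  ⟨fun _ hx => D2_inv H D hx, fun _ ha _ hx => D2_left H D ha hx, fun _ ha _ hx => D2_right H D ha hx,
    fun _ hx => D2_notMem H D hx⟩

open Classical in
/-- The retraction. -/
noncomputable def retr : FreeGroup (Letter H (D0 H D)) →* FreeGroup (Letter H (D0 H D)) :=
  FreeGroup.lift fun e => if ∃ c ∈ D, ((c : G) : G ⧸ H) = e.1.1 then FreeGroup.of e else 1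

theorem retr_map (w : FreeGroup (Letter (H1 H D) (D1 H D))) :
    retr H D (FreeGroup.map (iota H D) w) = FreeGroup.map (iota H D) w := by
  have h : (retr H D).comp (FreeGroup.map (iota H D)) = FreeGroup.map (iota H D) := by
    refine FreeGroup.ext_hom _ _ fun e => ?_
    rw [MonoidHom.comp_apply, FreeGroup.map.of]
    unfold retr
    rw [FreeGroup.lift_apply_of, if_pos]
    obtain ⟨a, b, h1, h2, h3⟩ := e.2
    exact ⟨a, a.2, by rw [← cosetMap_mk, h1]; rfl⟩
  exact congrArg (fun f => f w) h

theorem retr_act (hHD : H ≤ D) {d : G} (hd : d ∉ D) (w : FreeGroup (Letter (H1 H D) (D1 H D))) :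
    retr H D (act H (D0 H D) d (FreeGroup.map (iota H D) w)) = 1 := by
  have h : (retr H D).comp ((act H (D0 H D) d).toMonoidHom.comp (FreeGroup.map (iota H D))) = 1 := by
    refine FreeGroup.ext_hom _ _ fun e => ?_
    show retr H D (act H (D0 H D) d (FreeGroup.map (iota H D) (FreeGroup.of e))) = 1
    rw [FreeGroup.map.of, act_of]
    unfold retr
    rw [FreeGroup.lift_apply_of, if_neg]
    rintro ⟨c, hc, h1⟩
    obtain ⟨a, b, h2, -, -⟩ := e.2
    have h3 : ((c : G) : G ⧸ H) = ((d * (a : G) : G) : G ⧸ H) := by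
      rw [h1]
      show d • cosetMap H D e.1.1 = _
      rw [← h2]
      rfl
    rw [QuotientGroup.eq] at h3
    apply hd
    have h4 := mul_mem (mul_mem hc (hHD h3)) (inv_mem a.2)
    have h5 : c * (c⁻¹ * (d * (a : G))) * (a : G)⁻¹ = d := by group
    rwa [h5] at h4
  exact congrArg (fun f => f w) h

/-- Elements of `C2 ∩ d C2 d⁻¹`. -/
theorem mem_inter (hHD : H ≤ D) {d : G} (hd : d ∉ D) {y : W H (D0 H D)} (h1 : y ∈ C2 H D)
    (h2 : y ∈ (C2 H D).map (MulAut.conj (SemidirectProduct.inr d)).toMonoidHom) :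
    y.left = 1 ∧ y.right ∈ H ∧ y.right ∈ H.map (MulAut.conj d).toMonoidHom := by
  obtain ⟨x1, hx1, rfl⟩ := h1
  obtain ⟨_, ⟨x2, hx2, rfl⟩, h3⟩ := h2
  have h3' : (SemidirectProduct.inr d * J H D x2 * (SemidirectProduct.inr d)⁻¹ : W H (D0 H D)) =
      J H D x1 := h3
  have h4 : act H (D0 H D) d (FreeGroup.map (iota H D) x2.left) =
      FreeGroup.map (iota H D) x1.left := by
    have := congrArg SemidirectProduct.left h3'
    rw [← map_inv, SemidirectProduct.mul_left, SemidirectProduct.mul_left,
      SemidirectProduct.left_inr, SemidirectProduct.left_inr, SemidirectProduct.right_inr,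
      map_one, mul_one, one_mul, J_left, J_left] at this
    exact this
  have h5 : d * (x2.right : G) * d⁻¹ = (x1.right : G) := by
    have := congrArg SemidirectProduct.right h3'
    rw [← map_inv, SemidirectProduct.mul_right, SemidirectProduct.mul_right,
      SemidirectProduct.right_inr, SemidirectProduct.right_inr, J_right, J_right] at this
    exact this
  have h6 : FreeGroup.map (iota H D) x1.left = 1 := by
    rw [← retr_map, ← h4, retr_act H D hHD hd]
  have h7 : x1.left = 1 := FreeGroup.map_injective (iota_injective H D) (by rw [h6, map_one])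
  have h8 : x2.left = 1 := by
    rw [h6] at h4
    have h9 : FreeGroup.map (iota H D) x2.left = 1 :=
      (act H (D0 H D) d).injective (h4.trans (map_one _).symm)
    exact FreeGroup.map_injective (iota_injective H D) (by rw [h9, map_one])
  have key : ∀ x : W (H1 H D) (D1 H D), x ∈ Grp (H1 H D) (D1 H D) → x.left = 1 → (x.right : G) ∈ H := by
    intro x hx hl
    rw [mem_Grp, hl, map_one] at hx
    have h10 : (Pt.ctr (x.right • ((1 : D) : D ⧸ H1 H D)) : Pt (H1 H D)) =
      Pt.ctr ((1 : D) : D ⧸ H1 H D) := hx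
    rw [Pt.ctr.injEq] at h10
    have h11 : ((x.right * 1 : D) : D ⧸ H1 H D) = ((1 : D) : D ⧸ H1 H D) := h10
    rw [mul_one, QuotientGroup.eq, mul_one] at h11
    have h12 := inv_mem h11
    rw [inv_inv] at h12
    exact h12
  refine ⟨by rw [J_left, h6], by rw [J_right]; exact key x1 hx1 h7, ?_⟩
  exact ⟨(x2.right : G), key x2 hx2 h8, by rw [J_right]; exact h5⟩

open Classical in
/-- The section. -/
noncomputable def sect (g : G) : Grp (C2 H D) (D2 H D) :=
  if h : g ∈ D then sec (letter2 H D) (J H D (sec (letter1 H D) ⟨g, h⟩).1)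
  else sec (letter2 H D) (SemidirectProduct.inr g)

theorem sect_of_mem {g : G} (h : g ∈ D) :
    sect H D g = sec (letter2 H D) (J H D (sec (letter1 H D) ⟨g, h⟩).1) := by
  unfold sect
  rw [dif_pos h]

theorem sect_of_notMem {g : G} (h : g ∉ D) :
    sect H D g = sec (letter2 H D) (SemidirectProduct.inr g) := by
  unfold sect
  rw [dif_neg h]

theorem J_mem (x : Grp (H1 H D) (D1 H D)) : J H D x.1 ∈ C2 H D := ⟨x.1, x.2, rfl⟩

theorem inr_mem_D2 {g : G} (h : g ∉ D) : (SemidirectProduct.inr g : W H (D0 H D)) ∈ D2 H D :=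
  ⟨1, one_mem _, 1, one_mem _, g, h, by rw [one_mul, mul_one]⟩

theorem mem_or (g : D) : g ∈ H1 H D ∨ g ∈ D1 H D := Classical.em _

theorem sect_H (hHD : H ≤ D) {h : G} (hh : h ∈ H) : sect H D h = sec (letter2 H D) (SemidirectProduct.inr h) := by
  rw [sect_of_mem H D (hHD hh), sec_of_mem (letter1 H D) (c := ⟨h, hHD hh⟩) hh]
  congr 1

theorem inr_H_mem (hHD : H ≤ D) {h : G} (hh : h ∈ H) : (SemidirectProduct.inr h : W H (D0 H D)) ∈ C2 H D :=
  ⟨SemidirectProduct.inr ⟨h, hHD hh⟩, inr_mem (H1 H D) (D1 H D) (c := ⟨h, hHD hh⟩) hh, by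
    refine SemidirectProduct.ext ?_ rfl
    rw [J_left, SemidirectProduct.left_inr, SemidirectProduct.left_inr, map_one]⟩

/-- The projection. -/
noncomputable def projG : Grp (C2 H D) (D2 H D) →* G :=
  SemidirectProduct.rightHom.comp (proj (C2 H D) (D2 H D))

theorem isBisection_sect (hHD : H ≤ D) : IsBisection H (projG H D) (sect H D) := by
  refine ⟨?_, ?_, ?_⟩
  · intro g
    by_cases hg : g ∈ D
    · rw [sect_of_mem H D hg]
      show (proj (C2 H D) (D2 H D) (sec (letter2 H D) _)).right = g
      rw [proj_sec (letter2 H D) (Or.inl (J_mem H D _)), J_right]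
      exact congrArg Subtype.val (proj_sec (letter1 H D) (mem_or H D ⟨g, hg⟩))
    · rw [sect_of_notMem H D hg]
      show (proj (C2 H D) (D2 H D) (sec (letter2 H D) _)).right = g
      rw [proj_sec (letter2 H D) (Or.inr (inr_mem_D2 H D hg)), SemidirectProduct.right_inr]
  · intro g
    by_cases hg : g ∈ D
    · have hg' : g⁻¹ ∈ D := inv_mem hg
      rw [sect_of_mem H D hg, sect_of_mem H D hg', ← sec_inv (letter2 H D) (Or.inl (J_mem H D _)),
        ← map_inv]
      have := sec_inv (letter1 H D) (mem_or H D ⟨g, hg⟩)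
      have h2 : sec (letter1 H D) (⟨g⁻¹, hg'⟩ : D) = (sec (letter1 H D) ⟨g, hg⟩)⁻¹ := this
      rw [h2]
      rfl
    · have hg' : g⁻¹ ∉ D := fun h => hg (by rw [← inv_inv g]; exact inv_mem h)
      rw [sect_of_notMem H D hg, sect_of_notMem H D hg',
        ← sec_inv (letter2 H D) (Or.inr (inr_mem_D2 H D hg)), ← map_inv]
  · intro h hh g
    have hh' := hHD hh
    by_cases hg : g ∈ D
    · have h1 : h * g ∈ D := mul_mem hh' hg
      have h2 : g * h ∈ D := mul_mem hg hh'
      constructor
      · rw [sect_of_mem H D h1, sect_of_mem H D hh', sect_of_mem H D hg,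
          ← sec_mul_left (letter2 H D) (J_mem H D _) (Or.inl (J_mem H D _)), ← map_mul]
        have h3 : sec (letter1 H D) (⟨h * g, h1⟩ : D) =
            sec (letter1 H D) ⟨h, hh'⟩ * sec (letter1 H D) ⟨g, hg⟩ :=
          sec_mul_left (letter1 H D) (c := ⟨h, hh'⟩) hh (mem_or H D ⟨g, hg⟩)
        rw [h3]
        rfl
      · rw [sect_of_mem H D h2, sect_of_mem H D hh', sect_of_mem H D hg,
          ← sec_mul_right (letter2 H D) (J_mem H D _) (Or.inl (J_mem H D _)), ← map_mul]
        have h3 : sec (letter1 H D) (⟨g * h, h2⟩ : D) =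
            sec (letter1 H D) ⟨g, hg⟩ * sec (letter1 H D) ⟨h, hh'⟩ :=
          sec_mul_right (letter1 H D) (c := ⟨h, hh'⟩) hh (mem_or H D ⟨g, hg⟩)
        rw [h3]
        rfl
    · have h1 : h * g ∉ D := fun h1 => hg (by
        have := mul_mem (inv_mem hh') h1
        rwa [inv_mul_cancel_left] at this)
      have h2 : g * h ∉ D := fun h1 => hg (by
        have := mul_mem h1 (inv_mem hh')
        rwa [mul_inv_cancel_right] at this)
      constructor
      · rw [sect_of_notMem H D h1, sect_H H D hHD hh, sect_of_notMem H D hg,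
          ← sec_mul_left (letter2 H D) (inr_H_mem H D hHD hh) (Or.inr (inr_mem_D2 H D hg)), ← map_mul]
      · rw [sect_of_notMem H D h2, sect_H H D hHD hh, sect_of_notMem H D hg,
          ← sec_mul_right (letter2 H D) (inr_H_mem H D hHD hh) (Or.inr (inr_mem_D2 H D hg)), ← map_mul]

end level2

end Pool.Agent.OM.Lvl
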