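import Pool.Agent.Lib.MP_98022b_om.Rho

/-!
# Trees with good edge stabilizers
-/

set_option autoImplicit false

namespace Pool.Agent.OM

open SimpleGraph Pool.Agent.FJ UC MulAction
open Pool.Agent.Biset hiding TorsionFree
open scoped Pointwise

variable {S : ∀ (G : Type) [Group G], Prop}

/-- A subgroup of index two of an elliptic group. -/
theorem pc_of_fixed {G V : Type} [Group G] [MulAction G V] {T : SimpleGraph V}
    (hT : IsTreeAction G V T) (hV : ∀ v : V, KLHull S (stabilizer G v)) {E : Subgroup G} {v : V}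
    (hv : ∀ x ∈ E, x • v = v) : PC S G E := by
  rintro P ⟨P', hP', hPE, hi⟩
  have hfin : (orbit P v).Finite := by
    have h1 : (stabilizer P v).FiniteIndex := by
      refine ⟨fun h0 => ?_⟩
      have h2 : P'.subgroupOf P ≤ stabilizer P v := by
        intro x hx
        exact hv _ (hPE hx)
      have h3 : (P'.subgroupOf P).index = 0 := Subgroup.index_eq_zero_of_relIndex_eq_zero
        (by
          rw [Subgroup.relIndex_eq_zero_of_le_right (le_top (a := P'.subgroupOf P)) ?_]
          exact absurd h0 (fun h0 => by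
            have h4 := Subgroup.index_dvd_of_le h2
            rw [h0, zero_dvd_iff] at h4
            have h5 : P'.relIndex P = 0 := h4
            rw [h5] at hi
            exact absurd hi (by norm_num)))
      have h5 : P'.relIndex P = 0 := h3
      rw [h5] at hi
      exact absurd hi (by norm_num)
    have h2 : Finite (P ⧸ stabilizer P v) := inferInstance
    have h3 : Finite (orbit P v) := Finite.of_equiv _ (orbitEquivQuotientStabilizer P v).symm
    exact Set.toFinite _
  obtain ⟨w, hw⟩ := exists_fixed_vertex hT hfin ⟨v, mem_orbit_self v⟩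
  have h1 : P ≤ stabilizer G w := by
    intro x hx
    refine hw x ?_
    rw [mem_stabilizer_iff]
    refine Set.Subset.antisymm ?_ ?_
    · rintro _ ⟨_, ⟨y, rfl⟩, rfl⟩
      exact ⟨⟨x, hx⟩ * y, mul_smul _ _ _⟩
    · rintro _ ⟨y, rfl⟩
      refine ⟨x⁻¹ • y • v, ⟨(⟨x, hx⟩ : P)⁻¹ * y, mul_smul _ _ _⟩, ?_⟩
      exact smul_inv_smul x _
  exact KLHull.sub (Subgroup.inclusion h1) (Subgroup.inclusion_injective h1) (hV w)

theorem relIndex_map_subtype {G : Type} [Group G] {D : Subgroup G} (P' P : Subgroup D) :
    (P'.map D.subtype).relIndex (P.map D.subtype) = P'.relIndex P :=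
  Subgroup.relIndex_map_map_of_injective _ _ D.subtype_injective

/-- Transport of the condition to a subgroup. -/
theorem PC.sub {G : Type} [Group G] {D E : Subgroup G} (h : PC S G E) :
    PC S D (E.subgroupOf D) := by
  rintro P ⟨P', hP', hPE, hi⟩
  have h2 : KLHull S (P.map D.subtype) := by
    refine h _ ⟨P'.map D.subtype, Subgroup.map_mono hP', ?_, ?_⟩
    · rintro _ ⟨x, hx, rfl⟩
      exact hPE hx
    · rw [relIndex_map_subtype, hi]
  exact KLHull.sub (P.equivMapOfInjective _ D.subtype_injective).toMonoidHom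
    (P.equivMapOfInjective _ D.subtype_injective).injective h2

theorem Sec.self {A : Type} [Group A] {E : Subgroup A} (h : Sec S A E) : KLHull S E := by
  obtain ⟨L, iL, π, s, hL, h2, h3, h4⟩ := h
  have hs1 : s 1 = 1 := by
    have := (h4 1 (one_mem _) 1).1
    rw [mul_one] at this
    exact left_eq_mul.1 this
  let f : E →* L :=
    { toFun := fun x => s x
      map_one' := hs1
      map_mul' := fun x y => (h4 x x.2 y).1 }
  refine KLHull.sub f ?_ hL
  intro x y hxy
  have h5 : s x = s y := hxy
  exact Subtype.ext (by rw [← h2 x, ← h2 y, h5])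

/-- Good pairs have sections. -/
theorem Good.sec {G V : Type} [Group G] [MulAction G V] {T : SimpleGraph V}
    (ht : TorsionFree G) (hT : IsTreeAction G V T)
    (hV : ∀ v : V, KLHull S (stabilizer G v)) {D H : Subgroup G} (h : Good S D H)
    (hfg : H.FG) (hfix : ∃ v : V, ∀ x ∈ H, x • v = v) :
    Sec S D (H.subgroupOf D) := by
  induction h with
  | @small D H hHD h =>
    obtain ⟨k, hk⟩ := VSol.exists_rank h
    refine sol k D (ht.of_injective _ D.subtype_injective) _ ?_ ?_
    · have h1 : Group.FG H := (Group.fg_iff_subgroup_fg _).2 hfg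
      exact (Group.fg_iff_subgroup_fg _).1 (Group.fg_of_surjective
        (f := (Subgroup.subgroupOfEquivOfLe hHD).symm.toMonoidHom)
        (Subgroup.subgroupOfEquivOfLe hHD).symm.surjective)
    · exact VS.of_injective (Subgroup.subgroupOfEquivOfLe hHD).toMonoidHom
        (Subgroup.subgroupOfEquivOfLe hHD).injective hk
  | @hom D H hHD Q _ hQ ρ hρ =>
    exact sec_of_uc _ (uc_of_hom (ht.of_injective _ D.subtype_injective) (H.subgroupOf D) _ ρ hQ
      fun c hc => hρ c hc)
  | @glue D D' H hHD hD h1 h2 ih1 ih2 =>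
    have htD : TorsionFree D := ht.of_injective _ D.subtype_injective
    have hPC : PC S G H := by
      obtain ⟨v, hv⟩ := hfix
      exact pc_of_fixed hT hV hv
    have ih1 := ih1 hfg hfix
    have hHH : KLHull S H := by
      have h3 := Sec.self ih1
      exact KLHull.sub (Subgroup.subgroupOfEquivOfLe hHD).symm.toMonoidHom
        (Subgroup.subgroupOfEquivOfLe hHD).symm.injective h3
    have hHD' : H ≤ D := hHD.trans hD
    refine Lvl.glue (D := D'.subgroupOf D) htD (fun x hx => hHD hx) ?_ ?_ hPC.sub ?_
    · -- the first level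
      let f : (D'.subgroupOf D) →* D' := (Subgroup.subgroupOfEquivOfLe hD).toMonoidHom
      have hf : Function.Injective f := (Subgroup.subgroupOfEquivOfLe hD).injective
      refine uc_of_sec_self (htD.of_injective _ (Subgroup.subtype_injective _)) _ ?_ hPC.sub.sub
      refine Sec.pull f (isFreeGroup_ker_of_injective f hf) (Sec.mono ?_ ih1)
      rintro _ ⟨x, hx, rfl⟩
      exact hx
    · exact KLHull.sub (Subgroup.subgroupOfEquivOfLe hHD').toMonoidHom
        (Subgroup.subgroupOfEquivOfLe hHD').injective hHH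
    · intro g hg K hK hKE
      have hKH : ∀ k ∈ K.map D.subtype, k ∈ H ∧ (g : G)⁻¹ * k * g ∈ H := by
        rintro _ ⟨x, hx, rfl⟩
        exact hKE x hx
      obtain ⟨v, hv⟩ := hfix
      have h3 := ih2 g g.2 hg (K.map D.subtype) (fg_map _ hK) hKH (fg_map _ hK)
        ⟨v, fun x hx => hv x (hKH x hx).1⟩
      refine Sec.mono ?_ h3
      intro x hx
      exact ⟨x, hx, rfl⟩

/-- **Groups acting on trees with good edge stabilizers.** -/
theorem good_tree {G V : Type} [Group G] [MulAction G V] {T : SimpleGraph V}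
    (ht : TorsionFree G) (hT : IsTreeAction G V T)
    (hV : ∀ v : V, KLHull S (stabilizer G v))
    (hE : ∀ p q, T.Adj p q → ∀ H : Subgroup G, H.FG → (∀ h ∈ H, h • p = p ∧ h • q = q) →
      Good S ⊤ H) : KLHull S G := by
  refine tree_of_sec ht hT hV fun p q hpq H hfg hH => ?_
  have h1 := (hE p q hpq H hfg hH).sec ht hT hV hfg ⟨p, fun x hx => (hH x hx).1⟩
  let f : G →* (⊤ : Subgroup G) := Subgroup.topEquiv.symm.toMonoidHom
  refine Sec.pull f (isFreeGroup_ker_of_injective f Subgroup.topEquiv.symm.injective)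
    (Sec.mono ?_ h1)
  rintro _ ⟨x, hx, rfl⟩
  exact hx

/-- **Groups acting on trees: tame sets of vertices.** -/
theorem vert_tree {G V : Type} [Group G] [MulAction G V] {T : SimpleGraph V}
    (ht : TorsionFree G) (hT : IsTreeAction G V T)
    (hV : ∀ v : V, KLHull S (stabilizer G v)) (hsmall : Tame G V) : KLHull S G := by
  refine good_tree ht hT hV fun p q hpq H hfg hH => ?_
  refine good_of_tame (Ω := V) hsmall (fun F hF hne => ?_) H hfg ⟨p, ?_⟩
  · obtain ⟨v, hv⟩ := exists_fixed_vertex hT hF hne
    exact KLHull.sub (Subgroup.inclusion (K := stabilizer G v) hv)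
      (Subgroup.inclusion_injective _) (hV v)
  · refine (Set.finite_singleton p).subset ?_
    rintro _ ⟨h, rfl⟩
    exact (hH h h.2).1

end Pool.Agent.OM
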