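import Pool.Agent.Lib.MP_98022b_om.Sol

/-!
# Sections over finitely generated subgroups with finite orbits
-/

set_option autoImplicit false

namespace Pool.Agent.OM

open SimpleGraph Pool.Agent.FJ UC MulAction
open Pool.Agent.Biset hiding TorsionFree
open scoped Pointwise

variable {S : ∀ (G : Type) [Group G], Prop}

/-- There is a group of the class with a section over `H`. -/
def Sec (S : ∀ (G : Type) [Group G], Prop) (G : Type) [Group G] (H : Subgroup G) : Prop :=
  ∃ (L : Type) (_ : Group L) (π : L →* G) (s : G → L), KLHull S L ∧ IsBisection H π s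

theorem Sec.mono {G : Type} [Group G] {H K : Subgroup G} (h : H ≤ K) (hK : Sec S G K) :
    Sec S G H := by
  obtain ⟨L, i, π, s, h1, h2, h3, h4⟩ := hK
  exact ⟨L, i, π, s, h1, h2, h3, fun x hx => h4 x (h hx)⟩

theorem Sec.conj {G : Type} [Group G] {H : Subgroup G} (hH : Sec S G H) (g : G) :
    Sec S G (H.map (MulAut.conj g).toMonoidHom) := by
  obtain ⟨L, i, π, s, h1, h2, h3, h4⟩ := hH
  refine ⟨L, i, (MulAut.conj g).toMonoidHom.comp π, fun x => s (g⁻¹ * x * g), h1, ?_, ?_, ?_⟩
  · intro x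
    show g * π (s (g⁻¹ * x * g)) * g⁻¹ = x
    rw [h2]
    group
  · intro x
    show s (g⁻¹ * x⁻¹ * g) = (s (g⁻¹ * x * g))⁻¹
    rw [← h3]
    congr 1
    group
  · rintro _ ⟨h, hh, rfl⟩ x
    have e1 : g⁻¹ * (MulAut.conj g).toMonoidHom h * g = h := by
      show g⁻¹ * (g * h * g⁻¹) * g = h
      group
    have e2 : g⁻¹ * ((MulAut.conj g).toMonoidHom h * x) * g = h * (g⁻¹ * x * g) := by
      show g⁻¹ * (g * h * g⁻¹ * x) * g = h * (g⁻¹ * x * g)
      group
    have e3 : g⁻¹ * (x * (MulAut.conj g).toMonoidHom h) * g = (g⁻¹ * x * g) * h := by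
      show g⁻¹ * (x * (g * h * g⁻¹)) * g = (g⁻¹ * x * g) * h
      group
    constructor
    · show s (g⁻¹ * ((MulAut.conj g).toMonoidHom h * x) * g) =
        s (g⁻¹ * (MulAut.conj g).toMonoidHom h * g) * s (g⁻¹ * x * g)
      rw [e1, e2, (h4 h hh _).1]
    · show s (g⁻¹ * (x * (MulAut.conj g).toMonoidHom h) * g) =
        s (g⁻¹ * x * g) * s (g⁻¹ * (MulAut.conj g).toMonoidHom h * g)
      rw [e1, e3, (h4 h hh _).2]

/-- The rule for trees. -/
theorem tree_of_sec {G V : Type} [Group G] [MulAction G V] {T : SimpleGraph V}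
    (ht : TorsionFree G) (hT : IsTreeAction G V T) (hV : ∀ v : V, KLHull S (stabilizer G v))
    (hs : ∀ p q, T.Adj p q → ∀ H : Subgroup G, H.FG → (∀ h ∈ H, h • p = p ∧ h • q = q) →
      Sec S G H) : KLHull S G := by
  have key : ∀ i : {H : Subgroup G // Sec S G H}, ∃ (L : Type) (_ : Group L) (π : L →* G)
      (s : G → L), KLHull S L ∧ IsBisection i.1 π s := fun i => i.2
  choose L instL π s hL using key
  exact KLHull.tree T ht hT hV L (fun i => (hL i).1) π fun p q hpq H hfg hH =>
    ⟨⟨H, hs p q hpq H hfg hH⟩, s _, (hL _).2⟩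

/-- The universal group of a subgroup is in the class. -/
theorem uc_of_sec {A : Type} [Group A] (hA : TorsionFree A) (C : Subgroup A) (hC : KLHull S C)
    (hpair : ∀ v v' : A ⧸ C, v ≠ v' → KLHull S (stabilizer A (Pt.mid v v' : Pt C)))
    (hsec : ∀ v v' : A ⧸ C, v ≠ v' → ∀ K : Subgroup A, K.FG →
      (∀ k ∈ K, k • v = v ∧ k • v' = v') → Sec S A K) : KLHull S (Grp C {d | d ∉ C}) := by
  have hne : ∀ e : Letter C {d | d ∉ C}, e.1.1 ≠ e.1.2 := by
    rintro ⟨⟨v, v'⟩, a, b, h1, h2, h3⟩ h4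
    have h4' : v = v' := h4
    have h1' : (a : A ⧸ C) = v := h1
    have h2' : (b : A ⧸ C) = v' := h2
    apply h3
    rw [← QuotientGroup.eq, h1', h2', h4']
  have key : ∀ i : {H : Subgroup A // Sec S A H}, ∃ (L : Type) (_ : Group L) (π : L →* A)
      (s : A → L), KLHull S L ∧ IsBisection i.1 π s := fun i => i.2
  choose L1 instL π1 s1 h1 using key
  let L2 : ∀ i : {H : Subgroup A // Sec S A H}, Subgroup (Grp C {d | d ∉ C} × L1 i) := fun i =>
    ((proj C {d | d ∉ C}).comp (MonoidHom.fst _ _)).eqLocus ((π1 i).comp (MonoidHom.snd _ _))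
  refine KLHull.tree (Cay C {d | d ∉ C}) (torsionFree_Grp C _ hA) (isTreeAction C _) ?_
    (fun i => L2 i) ?_ (fun i => (MonoidHom.fst _ _).comp (L2 i).subtype) ?_
  · intro u
    -- the projection to the stabilizer of the point below
    let f : stabilizer (Grp C {d | d ∉ C}) u →* stabilizer A (below C {d | d ∉ C} u) :=
      ((proj C _).comp (Subgroup.subtype _)).codRestrict _ fun x => proj_below C _ x.2
    have hf : Function.Injective f := by
      rw [injective_iff_map_eq_one]
      intro x hx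
      exact Subtype.ext (eq_one_of_proj C _ x.2 (congrArg Subtype.val hx))
    refine KLHull.sub f hf ?_
    rcases below_cases C {d | d ∉ C} u with ⟨v, hv⟩ | ⟨e, he⟩
    · rw [hv]
      induction v using QuotientGroup.induction_on with
      | H b =>
        have h1 : stabilizer A (Pt.ctr (b : A ⧸ C) : Pt C) =
            C.map (MulAut.conj b).toMonoidHom := by
          rw [← stabilizer_coset]
          ext x
          rw [mem_stabilizer_iff, mem_stabilizer_iff, smul_ctr, Pt.ctr.injEq]
        rw [h1]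
        exact KLHull.sub (C.equivMapOfInjective _ (MulAut.conj b).injective).symm.toMonoidHom
          (C.equivMapOfInjective _ (MulAut.conj b).injective).symm.injective hC
    · rw [he]
      exact hpair _ _ (hne e)
  · intro i
    -- the kernel of the second projection is free
    refine KLHull.free ((MonoidHom.snd _ _).comp (L2 i).subtype) ?_ (h1 i).1
    let f : ((MonoidHom.snd (Grp C {d | d ∉ C}) (L1 i)).comp (L2 i).subtype).ker →*
        FreeGroup (Letter C {d | d ∉ C}) :=
      { toFun := fun x => x.1.1.1.1.left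
        map_one' := rfl
        map_mul' := fun x y => by
          have h2 : x.1.1.1.1.right = 1 := by
            have h3 : x.1.1.1.1.right = π1 i x.1.1.2 := x.1.2
            have h4 : x.1.1.2 = 1 := x.2
            rw [h3, h4, map_one]
          show x.1.1.1.1.left * act C {d | d ∉ C} x.1.1.1.1.right y.1.1.1.1.left = _
          rw [h2, map_one]
          rfl }
    have hf : Function.Injective f := by
      rw [injective_iff_map_eq_one]
      intro x hx
      have h2 : x.1.1.1.1.right = 1 := by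
        have h3 : x.1.1.1.1.right = π1 i x.1.1.2 := x.1.2
        have h4 : x.1.1.2 = 1 := x.2
        rw [h3, h4, map_one]
      exact Subtype.ext (Subtype.ext (Prod.ext (Subtype.ext (SemidirectProduct.ext hx h2)) x.2))
    exact IsFreeGroup.ofMulEquiv (MonoidHom.ofInjective hf).symm
  · intro p q hpq H hfg hH
    obtain ⟨e, he⟩ := proj_edge C {d | d ∉ C} hpq
    have hs : Sec S A (H.map (proj C {d | d ∉ C})) := by
      refine hsec e.1.1 e.1.2 (hne e) _ (fg_map _ hfg) ?_
      rintro _ ⟨x, hx, rfl⟩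
      have h2 := he x (hH x hx).1 (hH x hx).2
      exact ⟨congrArg (fun z : Letter C {d | d ∉ C} => z.1.1) h2,
        congrArg (fun z : Letter C {d | d ∉ C} => z.1.2) h2⟩
    obtain ⟨h2, h3, h4⟩ := (h1 ⟨_, hs⟩).2
    refine ⟨⟨_, hs⟩, fun x => ⟨(x, s1 ⟨_, hs⟩ (proj C _ x)), (h2 _).symm⟩, fun x => rfl, ?_, ?_⟩
    · intro x
      refine Subtype.ext (Prod.ext rfl ?_)
      show s1 ⟨_, hs⟩ (proj C _ x⁻¹) = (s1 ⟨_, hs⟩ (proj C _ x))⁻¹
      rw [map_inv, h3]
    · intro h hh x
      have h5 := h4 (proj C _ h) ⟨h, hh, rfl⟩ (proj C _ x)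
      refine ⟨Subtype.ext (Prod.ext rfl ?_), Subtype.ext (Prod.ext rfl ?_)⟩
      · show s1 ⟨_, hs⟩ (proj C _ (h * x)) = s1 ⟨_, hs⟩ (proj C _ h) * s1 ⟨_, hs⟩ (proj C _ x)
        rw [map_mul, h5.1]
      · show s1 ⟨_, hs⟩ (proj C _ (x * h)) = s1 ⟨_, hs⟩ (proj C _ x) * s1 ⟨_, hs⟩ (proj C _ h)
        rw [map_mul, h5.2]

/-- The section of the universal group. -/
theorem sec_of_uc {A : Type} [Group A] (C : Subgroup A) (h : KLHull S (Grp C {d | d ∉ C})) :
    Sec S A C := by
  have hl : IsLetterSet C {d | d ∉ C} :=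
    { inv := fun d hd h => hd (by rw [← inv_inv d]; exact inv_mem h)
      mul_left := fun c hc d hd h => hd (by
        have := mul_mem (inv_mem hc) h
        rwa [inv_mul_cancel_left] at this)
      mul_right := fun c hc d hd h => hd (by
        have := mul_mem h (inv_mem hc)
        rwa [mul_inv_cancel_right] at this)
      notMem := fun d hd => hd }
  exact ⟨Grp C {d | d ∉ C}, inferInstance, proj C _, sec hl, h,
    fun g => proj_sec hl (Classical.em _), fun g => sec_inv hl (Classical.em _), fun c hc g =>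
      ⟨sec_mul_left hl hc (Classical.em _), sec_mul_right hl hc (Classical.em _)⟩⟩

section Omega

variable {G Ω : Type} [Group G] [MulAction G Ω]

/-- The union of the finite orbits of the subgroup. -/
def fin (Ω : Type) [MulAction G Ω] (H : Subgroup G) : Set Ω := {a | (orbit H a).Finite}

theorem vsol_of_fixed {H : Subgroup G} (hfg : H.FG) {F : Finset Ω}
    (hsmall : ∀ K : Subgroup G, K.FG → (∀ k ∈ K, ∀ a ∈ F, k • a = a) → VSol K)
    (hF : (F : Set Ω) ⊆ fin Ω H) : VSol H := by
  have hHfg : Group.FG H := (Group.fg_iff_subgroup_fg _).2 hfg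
  have h1 : (⨅ a ∈ F, stabilizer H a).FiniteIndex := by
    refine Subgroup.finiteIndex_iInf' _ fun a ha => ⟨?_⟩
    rw [index_stabilizer]
    exact ((Set.ncard_pos (hF ha)).2 ⟨a, mem_orbit_self a⟩).ne'
  have h2 : Group.FG (⨅ a ∈ F, stabilizer H a : Subgroup H) := Subgroup.fg_of_index_ne_zero _
  have h3 : VSol ((⨅ a ∈ F, stabilizer H a : Subgroup H).map H.subtype) := by
    refine hsmall _ (fg_map _ ((Group.fg_iff_subgroup_fg _).1 h2)) ?_
    rintro _ ⟨x, hx, rfl⟩ a ha
    have h4 : x ∈ stabilizer H a := by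
      have h5 := Subgroup.mem_iInf.1 hx a
      exact Subgroup.mem_iInf.1 h5 ha
    exact h4
  obtain ⟨m, hm⟩ := VSol.exists_rank h3
  have h4 : VS m (⨅ a ∈ F, stabilizer H a : Subgroup H) :=
    VS.of_injective ((⨅ a ∈ F, stabilizer H a : Subgroup H).equivMapOfInjective _
      H.subtype_injective).toMonoidHom ((⨅ a ∈ F, stabilizer H a :
        Subgroup H).equivMapOfInjective _ H.subtype_injective).injective hm
  exact VS.vsol (VS.of_finiteIndex _ h1 h4)

theorem fin_finite (hsmall : Tame G Ω) {H : Subgroup G} (hfg : H.FG) (hH : ¬ VSol H) : (fin Ω H).Finite := by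
  by_contra h1
  obtain ⟨F, hF, hn⟩ := hsmall _ h1
  exact hH (vsol_of_fixed hfg hn hF)

/-- The finitely generated subgroups which are not small and have a finite orbit. -/
def Big (G Ω : Type) [Group G] [MulAction G Ω] : Type :=
  {H : Subgroup G // H.FG ∧ ¬ VSol H}

theorem big_wf (hsmall : Tame G Ω) : WellFounded (fun a b : Big G Ω => fin Ω b.1 ⊂ fin Ω a.1) := by
  classical
  rw [RelEmbedding.wellFounded_iff_isEmpty]
  refine ⟨fun f => ?_⟩
  have hf : ∀ n, fin Ω (f n).1 ⊂ fin Ω (f (n + 1)).1 := fun n =>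
    f.map_rel_iff.2 (Nat.lt_succ_self n)
  have hmono : Monotone fun n => fin Ω (f n).1 := monotone_nat_of_le_succ fun n => (hf n).subset
  have hinf : (⋃ n, fin Ω (f n).1).Infinite := by
    intro hfin
    have h1 : ∀ n, n ≤ (fin Ω (f n).1).ncard := by
      intro n
      induction n with
      | zero => exact Nat.zero_le _
      | succ n ih =>
        have h2 := Set.ncard_lt_ncard (hf n) (hfin.subset
          (Set.subset_iUnion (fun n => fin Ω (f n).1) (n + 1)))
        omega
    have h2 := h1 ((⋃ n, fin Ω (f n).1).ncard + 1)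
    have h3 := Set.ncard_le_ncard (Set.subset_iUnion (fun n => fin Ω (f n).1)
      ((⋃ n, fin Ω (f n).1).ncard + 1)) hfin
    omega
  obtain ⟨F, hF, hs⟩ := hsmall _ hinf
  obtain ⟨m, hm⟩ : ∃ m, (F : Set Ω) ⊆ fin Ω (f m).1 := by
    clear hs
    induction F using Finset.induction_on with
    | empty => exact ⟨0, by simp⟩
    | insert a F _ ih =>
      rw [Finset.coe_insert, Set.insert_subset_iff] at hF
      obtain ⟨m, hm⟩ := ih hF.2
      obtain ⟨k, hk⟩ := Set.mem_iUnion.1 hF.1
      refine ⟨max m k, ?_⟩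
      rw [Finset.coe_insert, Set.insert_subset_iff]
      exact ⟨hmono (le_max_right m k) hk, hm.trans (hmono (le_max_left m k))⟩
  exact (f m).2.2 (vsol_of_fixed (f m).2.1 hs hm)

/-- The finitely generated subgroups with a finite orbit are good. -/
theorem good_of_tame (hsmall : Tame G Ω)
    (hD : ∀ F : Set Ω, F.Finite → F.Nonempty → KLHull S (stabilizer G F))
    (H : Subgroup G) (hfg : H.FG) (hne : (fin Ω H).Nonempty) : Good S ⊤ H := by
  by_cases h1 : VSol H
  · exact Good.small le_top h1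
  suffices key : ∀ a : Big G Ω, (fin Ω a.1).Nonempty → Good S ⊤ a.1 from key ⟨H, hfg, h1⟩ hne
  intro a
  refine (big_wf hsmall).induction (C := fun a : Big G Ω => (fin Ω a.1).Nonempty →
    Good S ⊤ a.1) a ?_
  clear a
  rintro ⟨H, hfg, h1⟩ ih hne
  have hfin : (fin Ω H).Finite := fin_finite hsmall hfg h1
  set F : Set Ω := fin Ω H with hF
  -- the stabilizer of the set
  have hHD : H ≤ stabilizer G F := by
    have h2 : ∀ x ∈ H, ∀ a ∈ F, x • a ∈ F := by
      intro x hx a ha
      have h3 : orbit H (x • a) = orbit H a := orbit_eq_iff.2 ⟨⟨x, hx⟩, rfl⟩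
      show (orbit H (x • a)).Finite
      rw [h3]
      exact ha
    intro x hx
    rw [mem_stabilizer_iff]
    refine Set.Subset.antisymm ?_ ?_
    · rintro _ ⟨a, ha, rfl⟩
      exact h2 x hx a ha
    · intro a ha
      exact ⟨x⁻¹ • a, h2 _ (inv_mem hx) a ha, smul_inv_smul x a⟩
  refine Good.glue hHD le_top (Good.hom hHD (hD F hfin hne) (MonoidHom.id _) fun x _ h => h) ?_
  intro g _ hg K hK hKH
  by_cases h6 : VSol K
  · exact Good.small le_top h6
  have h9 : F ⊆ fin Ω K := by
    intro a ha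
    refine Set.Finite.subset ha ?_
    rintro _ ⟨k, rfl⟩
    exact ⟨⟨k, (hKH k k.2).1⟩, rfl⟩
  have h10 : g • F ⊆ fin Ω K := by
    rintro _ ⟨a, ha, rfl⟩
    refine (Set.Finite.image (g • ·) ha).subset ?_
    rintro _ ⟨k, rfl⟩
    refine ⟨(g⁻¹ * k * g) • a, ⟨⟨_, (hKH k k.2).2⟩, rfl⟩, ?_⟩
    show g • (g⁻¹ * (k : G) * g) • a = (k : G) • g • a
    rw [mul_smul, mul_smul, smul_inv_smul]
  have h11 : F ⊂ fin Ω K := by
    refine Set.ssubset_iff_subset_ne.2 ⟨h9, fun h11 => ?_⟩
    rw [← h11] at h10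
    apply hg
    exact Set.eq_of_subset_of_ncard_le h10 (by rw [Set.ncard_smul_set]) hfin
  exact ih ⟨K, hK, h6⟩ h11 (hne.mono h9)

end Omega

end Pool.Agent.OM
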