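import Pool.Agent.Lib.MP_98022b_om.Centre
import Pool.Agent.Lib.MP_98022b_om.FreeAct
import Pool.Agent.Lib.MP_98022b_om.Lvl

/-!
# Sections from homomorphisms which are injective on a subgroup
-/

set_option autoImplicit false

namespace Pool.Agent.OM

open SimpleGraph Pool.Agent.FJ UC MulAction
open Pool.Agent.Biset hiding TorsionFree
open scoped Pointwise

variable {S : ∀ (G : Type) [Group G], Prop}

/-- Pulling back a section along a homomorphism with free kernel. -/
theorem Sec.pull {A G : Type} [Group A] [Group G] (f : A →* G) (hf : IsFreeGroup f.ker)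
    {K : Subgroup A} (h : Sec S G (K.map f)) : Sec S A K := by
  obtain ⟨L, iL, π, s, hL, h2, h3, h4⟩ := h
  let L2 : Subgroup (A × L) := (f.comp (MonoidHom.fst A L)).eqLocus (π.comp (MonoidHom.snd A L))
  refine ⟨L2, inferInstance, (MonoidHom.fst A L).comp L2.subtype,
    fun x => ⟨(x, s (f x)), (h2 _).symm⟩, ?_, fun x => rfl, ?_, ?_⟩
  · refine KLHull.free ((MonoidHom.snd A L).comp L2.subtype) ?_ hL
    let φ : ((MonoidHom.snd A L).comp L2.subtype).ker →* f.ker :=
      ((MonoidHom.fst A L).comp (L2.subtype.comp (Subgroup.subtype _))).codRestrict f.ker (by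
        intro x
        have h5 : f x.1.1.1 = π x.1.1.2 := x.1.2
        have h6 : x.1.1.2 = 1 := x.2
        rw [MonoidHom.mem_ker]
        show f x.1.1.1 = 1
        rw [h5, h6, map_one])
    have hφ : Function.Injective φ := by
      rw [injective_iff_map_eq_one]
      intro x hx
      have h5 : x.1.1.1 = 1 := congrArg Subtype.val hx
      have h6 : x.1.1.2 = 1 := x.2
      exact Subtype.ext (Subtype.ext (Prod.ext h5 h6))
    exact IsFreeGroup.ofMulEquiv (MonoidHom.ofInjective hφ).symm
  · intro x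
    refine Subtype.ext (Prod.ext rfl ?_)
    show s (f x⁻¹) = (s (f x))⁻¹
    rw [map_inv, h3]
  · intro h hh x
    have h5 := h4 (f h) ⟨h, hh, rfl⟩ (f x)
    refine ⟨Subtype.ext (Prod.ext rfl ?_), Subtype.ext (Prod.ext rfl ?_)⟩
    · show s (f (h * x)) = s (f h) * s (f x)
      rw [map_mul, h5.1]
    · show s (f (x * h)) = s (f x) * s (f h)
      rw [map_mul, h5.2]

theorem isFreeGroup_of_subsingleton {N : Type} [Group N] (h : Subsingleton N) : IsFreeGroup N :=
  IsFreeGroup.ofMulEquiv (G := FreeGroup Empty)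
    { toFun := fun _ => 1
      invFun := fun _ => 1
      left_inv := fun _ => Subsingleton.elim _ _
      right_inv := fun _ => Subsingleton.elim _ _
      map_mul' := fun _ _ => Subsingleton.elim _ _ }

theorem isFreeGroup_ker_of_injective {A G : Type} [Group A] [Group G] (f : A →* G)
    (hf : Function.Injective f) : IsFreeGroup f.ker := by
  refine isFreeGroup_of_subsingleton ?_
  rw [(MonoidHom.ker_eq_bot_iff f).2 hf]
  infer_instance

/-- Groups which act on a tree with a homomorphism to a group of the class which is injective on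
the vertex stabilizers. -/
theorem KLHull.of_treeAction {L G V : Type} [Group L] [Group G] [MulAction L V]
    {T : SimpleGraph V} (hT : IsTreeAction L V T) (π : L →* G)
    (hπ : ∀ (g : L) (v : V), g • v = v → π g = 1 → g = 1) (h : KLHull S G) : KLHull S L := by
  refine KLHull.free π (isFreeGroup_of_freeAction (N := π.ker) (V := V) (T := T)
    ⟨hT.tree, fun g u v huv => hT.adj g u v huv, fun g u v huv h1 => hT.noInv g u v huv h1⟩ ?_) h
  intro g v hg
  exact Subtype.ext (hπ g v hg g.2)

/-- The kernel of the projection of the universal group is free. -/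
theorem isFreeGroup_ker_proj {A : Type} [Group A] (C : Subgroup A) (D : Set A) :
    IsFreeGroup (proj C D).ker := by
  let f : (proj C D).ker →* FreeGroup (Letter C D) :=
    { toFun := fun x => x.1.1.left
      map_one' := rfl
      map_mul' := fun x y => by
        have h2 : x.1.1.right = 1 := x.2
        show x.1.1.left * act C D x.1.1.right y.1.1.left = _
        rw [h2, map_one]
        rfl }
  have hf : Function.Injective f := by
    rw [injective_iff_map_eq_one]
    intro x hx
    exact Subtype.ext (Subtype.ext (SemidirectProduct.ext hx x.2))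
  exact IsFreeGroup.ofMulEquiv (MonoidHom.ofInjective hf).symm

/-- The kernel of the projection of `W` is free. -/
theorem isFreeGroup_ker_right {A : Type} [Group A] (C : Subgroup A) (D : Set A) :
    IsFreeGroup (SemidirectProduct.rightHom : W C D →* A).ker := by
  let f : (SemidirectProduct.rightHom : W C D →* A).ker →* FreeGroup (Letter C D) :=
    { toFun := fun x => x.1.left
      map_one' := rfl
      map_mul' := fun x y => by
        have h2 : x.1.right = 1 := x.2
        show x.1.left * act C D x.1.right y.1.left = _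
        rw [h2, map_one]
        rfl }
  have hf : Function.Injective f := by
    rw [injective_iff_map_eq_one]
    intro x hx
    exact Subtype.ext (SemidirectProduct.ext hx x.2)
  exact IsFreeGroup.ofMulEquiv (MonoidHom.ofInjective hf).symm

theorem smul_ctr_eq {A : Type} [Group A] (C : Subgroup A) {x b : A}
    (h : x • (Pt.ctr (b : A ⧸ C) : Pt C) = Pt.ctr (b : A ⧸ C)) : b⁻¹ * x * b ∈ C := by
  rw [smul_ctr, Pt.ctr.injEq] at h
  have h1 : ((x * b : A) : A ⧸ C) = (b : A ⧸ C) := h
  rw [QuotientGroup.eq] at h1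
  have h2 := inv_mem h1
  have h3 : ((x * b)⁻¹ * b)⁻¹ = b⁻¹ * x * b := by group
  rwa [h3] at h2

/-- The universal group of a subgroup on which a homomorphism to a group of the class is
injective. -/
theorem uc_of_hom {A Q : Type} [Group A] [Group Q] (hA : TorsionFree A) (C : Subgroup A)
    (D : Set A) (ρ : A →* Q) (hQ : KLHull S Q) (hρ : ∀ c ∈ C, ρ c = 1 → c = 1) :
    KLHull S (Grp C D) := by
  have key : ∀ (v : A ⧸ C) (x : A), x • v = v → ρ x = 1 → x = 1 := by
    intro v x hx h1
    induction v using QuotientGroup.induction_on with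
    | H b =>
      have h2 : b⁻¹ * x * b ∈ C := smul_ctr_eq C (by rw [smul_ctr, hx])
      have h3 := hρ _ h2 (by rw [map_mul, map_mul, h1, mul_one, map_inv, inv_mul_cancel])
      have h4 : x = b * (b⁻¹ * x * b) * b⁻¹ := by group
      rw [h4, h3, mul_one, mul_inv_cancel]
  refine KLHull.of_treeAction (isTreeAction C D) (ρ.comp (proj C D)) ?_ hQ
  intro x u hx h1
  have h2 := proj_below C D hx
  have h1' : ρ (proj C D x) = 1 := h1
  refine eq_one_of_proj C D hx ?_
  rcases below_cases C D u with ⟨v, hv⟩ | ⟨e, he⟩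
  · rw [hv, smul_ctr, Pt.ctr.injEq] at h2
    exact key v _ h2 h1'
  · rw [he, smul_mid, mid_eq_iff] at h2
    rcases h2 with h2 | h2
    · exact key _ _ h2.1 h1'
    · have h3 : (proj C D x * proj C D x) • e.1.1 = e.1.1 := by
        rw [mul_smul, h2.1, h2.2]
      have h4 := key _ _ h3 (by rw [map_mul, h1', mul_one])
      refine hA _ (isOfFinOrder_iff_pow_eq_one.2 ⟨2, two_pos, ?_⟩)
      rw [pow_two, h4]

/-- The universal group for general letters. -/
theorem uc_of_sec' {A : Type} [Group A] (hA : TorsionFree A) (C : Subgroup A) (D : Set A)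
    (hC : KLHull S C)
    (hpair : ∀ e : Letter C D, KLHull S (stabilizer A (Pt.mid e.1.1 e.1.2 : Pt C)))
    (hsec : ∀ e : Letter C D, ∀ K : Subgroup A, K.FG →
      (∀ k ∈ K, k • e.1.1 = e.1.1 ∧ k • e.1.2 = e.1.2) → Sec S A K) : KLHull S (Grp C D) := by
  refine tree_of_sec (torsionFree_Grp C D hA) (isTreeAction C D) ?_ ?_
  · intro u
    let f : stabilizer (Grp C D) u →* stabilizer A (below C D u) :=
      ((proj C _).comp (Subgroup.subtype _)).codRestrict _ fun x => proj_below C _ x.2
    have hf : Function.Injective f := by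
      rw [injective_iff_map_eq_one]
      intro x hx
      exact Subtype.ext (eq_one_of_proj C _ x.2 (congrArg Subtype.val hx))
    refine KLHull.sub f hf ?_
    rcases below_cases C D u with ⟨v, hv⟩ | ⟨e, he⟩
    · rw [hv]
      induction v using QuotientGroup.induction_on with
      | H b =>
        have h1 : stabilizer A (Pt.ctr (b : A ⧸ C) : Pt C) =
            C.map (MulAut.conj b).toMonoidHom := by
          rw [← stabilizer_coset]
          ext x
          rw [mem_stabilizer_iff, mem_stabilizer_iff, smul_ctr, Pt.ctr.injEq]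
        rw [h1]
        exact KLHull.sub (C.equivMapOfInjective _ (MulAut.conj b).injective).symm.toMonoidHom
          (C.equivMapOfInjective _ (MulAut.conj b).injective).symm.injective hC
    · rw [he]
      exact hpair e
  · intro p q hpq H hfg hH
    obtain ⟨e, he⟩ := proj_edge C D hpq
    refine Sec.pull (proj C D) (isFreeGroup_ker_proj C D) ?_
    refine hsec e _ (fg_map _ hfg) ?_
    rintro _ ⟨x, hx, rfl⟩
    have h2 := he x (hH x hx).1 (hH x hx).2
    exact ⟨congrArg (fun z : Letter C D => z.1.1) h2, congrArg (fun z : Letter C D => z.1.2) h2⟩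

/-- Condition on the pair stabilizers. -/
def PC (S : ∀ (G : Type) [Group G], Prop) (G : Type) [Group G] (E : Subgroup G) : Prop :=
  ∀ P : Subgroup G, (∃ P' : Subgroup G, P' ≤ P ∧ P' ≤ E ∧ P'.relIndex P = 2) → KLHull S P

/-- A group with a subgroup of index at most two which embeds. -/
theorem PC.pair {A G : Type} [Group A] [Group G] (hA : TorsionFree A) (f : A →* G)
    {E : Subgroup G} (hE : KLHull S E) (hPC : PC S G E) (P P' : Subgroup A)
    (hP : P' ≤ P) (hsq : ∀ x ∈ P, ∀ y ∈ P, x ∉ P' → y ∉ P' → x * y ∈ P')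
    (hinj : ∀ x ∈ P', f x = 1 → x = 1) (g : G) (hg : ∀ x ∈ P', g⁻¹ * f x * g ∈ E) :
    KLHull S P := by
  have hinjP : ∀ x ∈ P, f x = 1 → x = 1 := by
    intro x hx h1
    by_cases hx' : x ∈ P'
    · exact hinj x hx' h1
    · have h2 := hinj _ (hsq x hx x hx hx' hx') (by rw [map_mul, h1, mul_one])
      exact hA x (isOfFinOrder_iff_pow_eq_one.2 ⟨2, two_pos, by rw [pow_two, h2]⟩)
  -- the conjugate of the image
  let c : A →* G := (MulAut.conj g⁻¹).toMonoidHom.comp f
  have hc : ∀ x, c x = g⁻¹ * f x * g := by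
    intro x
    show g⁻¹ * f x * g⁻¹⁻¹ = _
    rw [inv_inv]
  have hcinj : ∀ x ∈ P, c x = 1 → x = 1 := by
    intro x hx h1
    refine hinjP x hx ?_
    rw [hc] at h1
    have h2 : f x = g * (g⁻¹ * f x * g) * g⁻¹ := by group
    rw [h2, h1, mul_one, mul_inv_cancel]
  have hemb : Function.Injective ((c.comp P.subtype).codRestrict (P.map c) fun x => ⟨x, x.2, rfl⟩) := by
    rw [injective_iff_map_eq_one]
    intro x hx
    exact Subtype.ext (hcinj x x.2 (congrArg Subtype.val hx))
  refine KLHull.sub _ hemb ?_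
  by_cases h : P ≤ P'
  · have h1 : P.map c ≤ E := by
      rintro _ ⟨x, hx, rfl⟩
      rw [hc]
      exact hg x (h hx)
    exact KLHull.sub (Subgroup.inclusion h1) (Subgroup.inclusion_injective h1) hE
  · obtain ⟨t, ht, ht'⟩ := SetLike.not_le_iff_exists.1 h
    refine hPC _ ⟨P'.map c, Subgroup.map_mono hP, ?_, ?_⟩
    · rintro _ ⟨x, hx, rfl⟩
      rw [hc]
      exact hg x hx
    · have h1 : (P'.map c).relIndex (P.map c) = P'.relIndex P := by
        have h2 : (P'.subgroupOf P).map (c.comp P.subtype) = P'.map c := by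
          rw [← Subgroup.map_map, Subgroup.map_subgroupOf_eq_of_le hP]
        have h3 : (⊤ : Subgroup P).map (c.comp P.subtype) = P.map c := by
          rw [← Subgroup.map_map, ← MonoidHom.range_eq_map, Subgroup.range_subtype]
        have h4 : Function.Injective (c.comp P.subtype) := by
          rw [injective_iff_map_eq_one]
          intro x hx
          exact Subtype.ext (hcinj x x.2 hx)
        rw [← h2, ← h3, Subgroup.relIndex_map_map_of_injective _ _ h4, Subgroup.relIndex_top_right]
        rfl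
      rw [h1]
      rw [Subgroup.relIndex, Subgroup.index_eq_two_iff]
      refine ⟨⟨t, ht⟩, fun x => ?_⟩
      have h2 : (x * ⟨t, ht⟩ : P) ∈ P'.subgroupOf P ↔ (x : A) * t ∈ P' := Iff.rfl
      have h3 : x ∈ P'.subgroupOf P ↔ (x : A) ∈ P' := Iff.rfl
      rw [h2, h3]
      by_cases hx : (x : A) ∈ P'
      · right
        refine ⟨hx, fun h4 => ht' ?_⟩
        have := mul_mem (inv_mem hx) h4
        rwa [inv_mul_cancel_left] at this
      · left
        exact ⟨hsq x x.2 t ht hx ht', hx⟩

/-- The universal group of a subgroup with a section. -/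
theorem uc_of_sec_self {A : Type} [Group A] (hA : TorsionFree A) (E : Subgroup A)
    (h : Sec S A E) (hPC : PC S A E) : KLHull S (Grp E {d | d ∉ E}) := by
  have hE : KLHull S E := by
    obtain ⟨L, iL, π, s, hL, h2, h3, h4⟩ := h
    have hs1 : s 1 = 1 := by
      have := (h4 1 (one_mem _) 1).1
      rw [mul_one] at this
      exact left_eq_mul.1 this
    let f : E →* L :=
      { toFun := fun x => s x
        map_one' := hs1
        map_mul' := fun x y => (h4 x x.2 y).1 }
    refine KLHull.sub f ?_ hL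
    intro x y hxy
    have h5 : s x = s y := hxy
    exact Subtype.ext (by rw [← h2 x, ← h2 y, h5])
  have hne : ∀ e : Letter E {d | d ∉ E}, e.1.1 ≠ e.1.2 := by
    rintro ⟨⟨v, v'⟩, a, b, h1, h2, h3⟩ h4
    have h4' : v = v' := h4
    have h1' : (a : A ⧸ E) = v := h1
    have h2' : (b : A ⧸ E) = v' := h2
    apply h3
    rw [← QuotientGroup.eq, h1', h2', h4']
  refine uc_of_sec' hA E _ hE ?_ ?_
  · intro e
    obtain ⟨⟨v, v'⟩, he⟩ := e
    have hvv : v ≠ v' := hne ⟨⟨v, v'⟩, he⟩
    induction v using QuotientGroup.induction_on with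
    | H b =>
      refine PC.pair hA (MonoidHom.id A) hE hPC
        (stabilizer A (Pt.mid (b : A ⧸ E) v' : Pt E))
        (stabilizer A (Pt.mid (b : A ⧸ E) v' : Pt E) ⊓ stabilizer A (b : A ⧸ E)) inf_le_left ?_
        (fun x _ h => h) b ?_
      · intro x hx y hy hx' hy'
        refine ⟨mul_mem hx hy, ?_⟩
        rw [mem_stabilizer_iff, smul_mid, mid_eq_iff] at hx hy
        have h1 : x • v' = (b : A ⧸ E) := by
          rcases hx with hx | hx
          · exact absurd ⟨by
              show x • (Pt.mid (b : A ⧸ E) v' : Pt E) = _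
              rw [smul_mid, hx.1, hx.2], hx.1⟩ hx'
          · exact hx.2
        have h2 : y • (b : A ⧸ E) = v' := by
          rcases hy with hy | hy
          · exact absurd ⟨by
              show y • (Pt.mid (b : A ⧸ E) v' : Pt E) = _
              rw [smul_mid, hy.1, hy.2], hy.1⟩ hy'
          · exact hy.1
        show (x * y) • (b : A ⧸ E) = (b : A ⧸ E)
        rw [mul_smul, h2, h1]
      · rintro x ⟨-, hx⟩
        have h1 : x • (b : A ⧸ E) = (b : A ⧸ E) := hx
        exact smul_ctr_eq E (x := x) (by rw [smul_ctr, h1])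
  · intro e K _ hK
    obtain ⟨⟨v, v'⟩, he⟩ := e
    induction v using QuotientGroup.induction_on with
    | H b =>
      refine Sec.mono ?_ (h.conj b)
      intro k hk
      have h1 : k • (b : A ⧸ E) = (b : A ⧸ E) := (hK k hk).1
      refine ⟨b⁻¹ * k * b, smul_ctr_eq E (by rw [smul_ctr, h1]), ?_⟩
      show b * (b⁻¹ * k * b) * b⁻¹ = k
      group

namespace Lvl

/-- **Gluing.** -/
theorem glue {G : Type} [Group G] (ht : TorsionFree G) {E D : Subgroup G} (hED : E ≤ D)
    (h1 : KLHull S (Grp (H1 E D) (D1 E D))) (hE : KLHull S E) (hPC : PC S G E)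
    (h2 : ∀ g ∉ D, ∀ K : Subgroup G, K.FG → (∀ k ∈ K, k ∈ E ∧ g⁻¹ * k * g ∈ E) → Sec S G K) :
    Sec S G E := by
  have htW : TorsionFree (W E (D0 E D)) := torsionFree_W E (D0 E D) ht
  have hC : KLHull S (C2 E D) :=
    KLHull.sub ((Grp (H1 E D) (D1 E D)).equivMapOfInjective _ (J_injective E D)).symm.toMonoidHom
      ((Grp (H1 E D) (D1 E D)).equivMapOfInjective _ (J_injective E D)).symm.injective h1
  -- the stabilizer of an edge
  have key : ∀ (a b c c' : W E (D0 E D)) (d : G), c ∈ C2 E D → d ∉ D →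
      a⁻¹ * b = c * SemidirectProduct.inr d * c' → c' ∈ C2 E D → ∀ x : W E (D0 E D),
      x • (a : W E (D0 E D) ⧸ C2 E D) = a → x • (b : W E (D0 E D) ⧸ C2 E D) = b →
      ((a * c)⁻¹ * x * (a * c)).left = 1 ∧ ((a * c)⁻¹ * x * (a * c)).right ∈ E ∧
        d⁻¹ * ((a * c)⁻¹ * x * (a * c)).right * d ∈ E := by
    intro a b c c' d hc hd hab hc' x hxa hxb
    have e1 : a⁻¹ * x * a ∈ C2 E D := smul_ctr_eq _ (by rw [smul_ctr, hxa])
    have e2 : b⁻¹ * x * b ∈ C2 E D := smul_ctr_eq _ (by rw [smul_ctr, hxb])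
    have e3 : (a * c)⁻¹ * x * (a * c) ∈ C2 E D := by
      have : (a * c)⁻¹ * x * (a * c) = c⁻¹ * (a⁻¹ * x * a) * c := by group
      rw [this]
      exact mul_mem (mul_mem (inv_mem hc) e1) hc
    have hb : b = a * (c * SemidirectProduct.inr d * c') := by rw [← hab]; group
    have e4 : (a * c)⁻¹ * x * (a * c) ∈
        (C2 E D).map (MulAut.conj (SemidirectProduct.inr d)).toMonoidHom := by
      refine ⟨c' * (b⁻¹ * x * b) * c'⁻¹, mul_mem (mul_mem hc' e2) (inv_mem hc'), ?_⟩
      show SemidirectProduct.inr d * (c' * (b⁻¹ * x * b) * c'⁻¹) * (SemidirectProduct.inr d)⁻¹ = _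
      rw [hb]
      group
    obtain ⟨f1, f2, f3⟩ := mem_inter E D hED hd e3 e4
    refine ⟨f1, f2, ?_⟩
    obtain ⟨z, hz, hz'⟩ := f3
    have hz'' : d * z * d⁻¹ = ((a * c)⁻¹ * x * (a * c)).right := hz'
    rw [← hz'']
    have : d⁻¹ * (d * z * d⁻¹) * d = z := by group
    rw [this]
    exact hz
  refine ⟨Grp (C2 E D) (D2 E D), inferInstance, projG E D, sect E D, ?_, isBisection_sect E D hED⟩
  refine uc_of_sec' htW (C2 E D) (D2 E D) hC ?_ ?_
  · rintro ⟨⟨v, v'⟩, a, b, ha, hb, c, hc, c', hc', d, hd, hab⟩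
    have ha' : (a : W E (D0 E D) ⧸ C2 E D) = v := ha
    have hb' : (b : W E (D0 E D) ⧸ C2 E D) = v' := hb
    subst ha' hb'
    refine PC.pair htW (SemidirectProduct.rightHom : W E (D0 E D) →* G) hE hPC
      (stabilizer (W E (D0 E D)) (Pt.mid (a : W E (D0 E D) ⧸ C2 E D) b : Pt (C2 E D)))
      (stabilizer (W E (D0 E D)) (a : W E (D0 E D) ⧸ C2 E D) ⊓
        stabilizer (W E (D0 E D)) (b : W E (D0 E D) ⧸ C2 E D)) ?_ ?_ ?_ (a * c).right ?_
    · rintro x ⟨hx1, hx2⟩
      have hx1' : x • (a : W E (D0 E D) ⧸ C2 E D) = a := hx1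
      have hx2' : x • (b : W E (D0 E D) ⧸ C2 E D) = b := hx2
      rw [mem_stabilizer_iff, smul_mid, hx1', hx2']
    · intro x hx y hy hx' hy'
      rw [mem_stabilizer_iff, smul_mid, mid_eq_iff] at hx hy
      have h3 : x • (a : W E (D0 E D) ⧸ C2 E D) = b ∧ x • (b : W E (D0 E D) ⧸ C2 E D) = a := by
        rcases hx with hx | hx
        · exact absurd ⟨hx.1, hx.2⟩ hx'
        · exact hx
      have h4 : y • (a : W E (D0 E D) ⧸ C2 E D) = b ∧ y • (b : W E (D0 E D) ⧸ C2 E D) = a := by
        rcases hy with hy | hy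
        · exact absurd ⟨hy.1, hy.2⟩ hy'
        · exact hy
      refine ⟨?_, ?_⟩
      · show (x * y) • (a : W E (D0 E D) ⧸ C2 E D) = a
        rw [mul_smul, h4.1, h3.2]
      · show (x * y) • (b : W E (D0 E D) ⧸ C2 E D) = b
        rw [mul_smul, h4.2, h3.1]
    · rintro x ⟨hx1, hx2⟩ hx3
      obtain ⟨f1, -, -⟩ := key a b c c' d hc hd hab hc' x hx1 hx2
      have f2 : ((a * c)⁻¹ * x * (a * c)).right = 1 := by
        have hx3' : x.right = 1 := hx3
        rw [SemidirectProduct.mul_right, SemidirectProduct.mul_right, hx3', mul_one,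
          SemidirectProduct.inv_right, inv_mul_cancel]
      have f3 : (a * c)⁻¹ * x * (a * c) = 1 := SemidirectProduct.ext f1 f2
      have f4 : x = (a * c) * ((a * c)⁻¹ * x * (a * c)) * (a * c)⁻¹ := by group
      rw [f4, f3, mul_one, mul_inv_cancel]
    · rintro x ⟨hx1, hx2⟩
      exact (key a b c c' d hc hd hab hc' x hx1 hx2).2.1
  · rintro ⟨⟨v, v'⟩, a, b, ha, hb, c, hc, c', hc', d, hd, hab⟩ K hK hKv
    have ha' : (a : W E (D0 E D) ⧸ C2 E D) = v := ha
    have hb' : (b : W E (D0 E D) ⧸ C2 E D) = v' := hb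
    subst ha' hb'
    refine Sec.pull (SemidirectProduct.rightHom : W E (D0 E D) →* G)
      (isFreeGroup_ker_right E (D0 E D)) ?_
    let K' : Subgroup G := (K.map (SemidirectProduct.rightHom : W E (D0 E D) →* G)).map
      (MulAut.conj (a * c).right⁻¹).toMonoidHom
    have h3 : Sec S G K' := by
      refine h2 d hd K' (fg_map _ (fg_map _ hK)) ?_
      rintro _ ⟨_, ⟨x, hx, rfl⟩, rfl⟩
      have h4 := (key a b c c' d hc hd hab hc' x (hKv x hx).1 (hKv x hx).2).2
      have h5 : (MulAut.conj (a * c).right⁻¹).toMonoidHom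
          ((SemidirectProduct.rightHom : W E (D0 E D) →* G) x) =
          ((a * c)⁻¹ * x * (a * c)).right := by
        show (a * c).right⁻¹ * x.right * (a * c).right⁻¹⁻¹ = _
        rw [SemidirectProduct.mul_right ((a * c)⁻¹ * x), SemidirectProduct.mul_right (a * c)⁻¹ x,
          SemidirectProduct.inv_right, inv_inv]
      rw [h5]
      exact h4
    refine Sec.mono ?_ (h3.conj (a * c).right)
    rintro _ ⟨x, hx, rfl⟩
    refine ⟨_, ⟨_, ⟨x, hx, rfl⟩, rfl⟩, ?_⟩
    show (a * c).right * ((a * c).right⁻¹ * x.right * (a * c).right⁻¹⁻¹) * (a * c).right⁻¹ = x.right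
    group

end Lvl

end Pool.Agent.OM
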