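import Pool.Agent.Lib.MP_98022b_om.Main

/-!
# Trees with good stabilizers of long paths
-/

set_option autoImplicit false

namespace Pool.Agent.OM

open SimpleGraph MulAction

section

variable {V : Type} {T : SimpleGraph V}

private theorem adj_cases (hT : T.IsTree) {a b : V} (hab : T.Adj a b) (v : V) :
    T.dist a v = T.dist b v + 1 ∨ T.dist b v = T.dist a v + 1 := by
  have h := hT.dist_eq_dist_add_one_of_adj v hab
  rw [T.dist_comm (u := v) (v := a), T.dist_comm (u := v) (v := b)] at h
  exact h

private theorem closer_unique' (hT : T.IsTree) {u v w w' : V} (hw : T.Adj v w) (hw' : T.Adj v w')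
    (h : T.dist w u + 1 = T.dist v u) (h' : T.dist w' u + 1 = T.dist v u) : w = w' := by
  obtain ⟨p, hp⟩ := hT.connected.exists_walk_length_eq_dist w u
  obtain ⟨q, hq⟩ := hT.connected.exists_walk_length_eq_dist w' u
  have h1 : (SimpleGraph.Walk.cons hw p).IsPath := by
    apply SimpleGraph.Walk.isPath_of_length_eq_dist
    rw [SimpleGraph.Walk.length_cons, hp, h]
  have h2 : (SimpleGraph.Walk.cons hw' q).IsPath := by
    apply SimpleGraph.Walk.isPath_of_length_eq_dist
    rw [SimpleGraph.Walk.length_cons, hq, h']
  have h3 := (hT.isAcyclic.subsingleton_path _ _).elim ⟨_, h1⟩ ⟨_, h2⟩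
  have h4 : SimpleGraph.Walk.cons hw p = SimpleGraph.Walk.cons hw' q := Subtype.ext_iff.1 h3
  have h5 := congrArg (fun r => SimpleGraph.Walk.getVert r 1) h4
  simpa using h5

private theorem exists_closer' (hT : T.IsTree) {u v : V} (h : v ≠ u) :
    ∃ w, T.Adj v w ∧ T.dist w u + 1 = T.dist v u := by
  obtain ⟨p, hp⟩ := hT.connected.exists_walk_length_eq_dist v u
  cases p with
  | nil => exact absurd rfl h
  | @cons _ w _ hadj q =>
    rw [Walk.length_cons] at hp
    have h1 := dist_le q
    rcases adj_cases hT hadj u with h2 | h2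
    · exact ⟨w, hadj, h2.symm⟩
    · omega

/-- A point `c` of the path from `u` to `v` lies between `x` and `u` or between `x` and `v`. -/
private theorem gate (hT : T.IsTree) {u v c : V} (h : T.dist u c + T.dist c v = T.dist u v) :
    ∀ (n : ℕ) (x : V), T.dist x c = n →
      T.dist x u = T.dist x c + T.dist c u ∨ T.dist x v = T.dist x c + T.dist c v := by
  intro n
  induction n with
  | zero =>
    intro x hx
    rw [hT.connected.dist_eq_zero_iff] at hx
    subst hx
    left
    rw [SimpleGraph.dist_self, Nat.zero_add]
  | succ n ih =>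
    intro x hx
    have hxc : x ≠ c := by
      rintro rfl
      rw [SimpleGraph.dist_self] at hx
      omega
    obtain ⟨y, hxy, hy⟩ := exists_closer' hT hxc
    have hcase : ∀ u v : V, T.dist u c + T.dist c v = T.dist u v →
        T.dist y u = T.dist y c + T.dist c u →
        T.dist x u = T.dist x c + T.dist c u ∨ T.dist x v = T.dist x c + T.dist c v := by
      intro u v h h1
      rcases adj_cases hT hxy u with h2 | h2
      · left
        omega
      · -- `x` is the neighbour of `y` closer to `u`
        by_cases hyc : y = c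
        · subst hyc
          right
          have t1 : T.dist u v ≤ T.dist u x + T.dist x v := hT.connected.dist_triangle
          have t2 : T.dist x v ≤ T.dist x y + T.dist y v := hT.connected.dist_triangle
          have e1 : T.dist u x = T.dist x u := SimpleGraph.dist_comm
          have e2 : T.dist u y = T.dist y u := SimpleGraph.dist_comm
          have e3 : T.dist y y = 0 := SimpleGraph.dist_self
          omega
        · exfalso
          obtain ⟨z, hyz, hz⟩ := exists_closer' hT hyc
          have t1 : T.dist z u ≤ T.dist z c + T.dist c u := hT.connected.dist_triangle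
          have t2 : T.dist y u ≤ T.dist y z + T.dist z u := hT.connected.dist_triangle
          have t3 : T.dist y z = 1 := SimpleGraph.dist_eq_one_iff_adj.2 hyz
          have h3 : x = z := closer_unique' hT (u := u) hxy.symm hyz (by omega) (by omega)
          subst h3
          omega
    rcases ih y (by omega) with h1 | h1
    · exact hcase u v h h1
    · have e1 : T.dist v c = T.dist c v := SimpleGraph.dist_comm
      have e2 : T.dist c u = T.dist u c := SimpleGraph.dist_comm
      have e3 : T.dist v u = T.dist u v := SimpleGraph.dist_comm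
      exact (hcase v u (by omega) h1).symm

private theorem point_unique (hT : T.IsTree) {u v c c' : V}
    (h : T.dist u c + T.dist c v = T.dist u v) (h1 : T.dist u c' = T.dist u c)
    (h2 : T.dist c' v = T.dist c v) : c' = c := by
  rw [← hT.connected.dist_eq_zero_iff]
  have e1 : T.dist c' u = T.dist u c' := SimpleGraph.dist_comm
  have e2 : T.dist c u = T.dist u c := SimpleGraph.dist_comm
  rcases gate hT h _ c' rfl with h3 | h3 <;> omega

private theorem exists_point (hT : T.IsTree) (u v : V) :
    ∀ i : ℕ, i ≤ T.dist u v → ∃ c, T.dist u c = i ∧ T.dist c v + i = T.dist u v := by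
  intro i
  induction i with
  | zero => exact fun _ => ⟨u, SimpleGraph.dist_self, rfl⟩
  | succ i ih =>
    intro hi
    obtain ⟨c, h1, h2⟩ := ih (by omega)
    have hcv : c ≠ v := by
      rintro rfl
      rw [SimpleGraph.dist_self] at h2
      omega
    obtain ⟨w, hcw, hw⟩ := exists_closer' hT hcv
    have t1 : T.dist u w ≤ T.dist u c + T.dist c w := hT.connected.dist_triangle
    have t2 : T.dist u v ≤ T.dist u w + T.dist w v := hT.connected.dist_triangle
    have t3 : T.dist c w = 1 := SimpleGraph.dist_eq_one_iff_adj.2 hcw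
    exact ⟨w, by omega, by omega⟩

end

section

variable {G V : Type} [Group G] [MulAction G V] {T : SimpleGraph V}

private theorem dist_smul (hT : IsTreeAction G V T) (g : G) (u v : V) :
    T.dist (g • u) (g • v) = T.dist u v := by
  have key : ∀ (g : G) (u v : V), T.dist (g • u) (g • v) ≤ T.dist u v := by
    intro g u v
    obtain ⟨w, hw⟩ := hT.tree.connected.exists_walk_length_eq_dist u v
    have h := T.dist_le (w.map (⟨fun x => g • x, fun {a b} h => hT.adj g a b h⟩ : T →g T))
    rw [SimpleGraph.Walk.length_map, hw] at h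
    exact h
  refine le_antisymm (key g u v) ?_
  have h := key g⁻¹ (g • u) (g • v)
  rwa [inv_smul_smul, inv_smul_smul] at h

/-- An element which fixes the ends of a path fixes its points. -/
private theorem fix_point (hT : IsTreeAction G V T) {u v c : V} {g : G} (hu : g • u = u)
    (hv : g • v = v) (h : T.dist u c + T.dist c v = T.dist u v) : g • c = c := by
  refine point_unique hT.tree h ?_ ?_
  · rw [← dist_smul hT g u c, hu]
  · rw [← dist_smul hT g c v, hv]

/-- The centre of a path of even length. -/
private theorem even_centre (hT : IsTreeAction G V T) {u v c : V} {j : ℕ} {g : G}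
    (h1 : T.dist u c = j) (h2 : T.dist c v = j) (h : T.dist u v = j + j)
    (a1 : T.dist (g • u) u ≤ j + j) (a2 : T.dist (g • u) v ≤ j + j)
    (a3 : T.dist (g • v) u ≤ j + j) (a4 : T.dist (g • v) v ≤ j + j) : g • c = c := by
  have e1 : T.dist c u = T.dist u c := SimpleGraph.dist_comm
  have b1 : T.dist (g • u) c ≤ j := by
    rcases gate hT.tree (u := u) (v := v) (c := c) (by omega) _ (g • u) rfl with h3 | h3 <;> omega
  have b2 : T.dist (g • v) c ≤ j := by
    rcases gate hT.tree (u := u) (v := v) (c := c) (by omega) _ (g • v) rfl with h3 | h3 <;> omega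
  have c1 : T.dist (g • u) (g • v) = j + j := by rw [dist_smul hT, h]
  have c2 : T.dist (g • u) (g • c) = j := by rw [dist_smul hT, h1]
  have c3 : T.dist (g • c) (g • v) = j := by rw [dist_smul hT, h2]
  have e2 : T.dist (g • v) c = T.dist c (g • v) := SimpleGraph.dist_comm
  have t1 : T.dist (g • u) (g • v) ≤ T.dist (g • u) c + T.dist c (g • v) :=
    hT.tree.connected.dist_triangle
  exact point_unique hT.tree (u := g • u) (v := g • v) (by omega) (by omega) (by omega)

/-- The centre of a path of odd length. -/
private theorem odd_centre (hT : IsTreeAction G V T) {u v a b : V} {j : ℕ} {g : G}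
    (hab : T.Adj a b) (h1 : T.dist u a = j) (h2 : T.dist b v = j) (h : T.dist u v = j + j + 1)
    (a1 : T.dist (g • u) u ≤ j + j + 1) (a2 : T.dist (g • u) v ≤ j + j + 1)
    (a3 : T.dist (g • v) u ≤ j + j + 1) (a4 : T.dist (g • v) v ≤ j + j + 1) :
    g • a = a ∧ g • b = b := by
  have eab : T.dist a b = 1 := SimpleGraph.dist_eq_one_iff_adj.2 hab
  have eba : T.dist b a = 1 := SimpleGraph.dist_eq_one_iff_adj.2 hab.symm
  have t1 : T.dist u v ≤ T.dist u a + T.dist a v := hT.tree.connected.dist_triangle
  have t2 : T.dist a v ≤ T.dist a b + T.dist b v := hT.tree.connected.dist_triangle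
  have t3 : T.dist u v ≤ T.dist u b + T.dist b v := hT.tree.connected.dist_triangle
  have t4 : T.dist u b ≤ T.dist u a + T.dist a b := hT.tree.connected.dist_triangle
  have h3 : T.dist a v = j + 1 := by omega
  have h4 : T.dist u b = j + 1 := by omega
  have e1 : T.dist a u = T.dist u a := SimpleGraph.dist_comm
  have e2 : T.dist b u = T.dist u b := SimpleGraph.dist_comm
  -- the position of a point
  have pos : ∀ x : V, T.dist x u ≤ j + j + 1 → T.dist x v ≤ j + j + 1 →
      (T.dist x a ≤ j ∧ T.dist x b = T.dist x a + 1) ∨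
      (T.dist x b ≤ j ∧ T.dist x a = T.dist x b + 1) := by
    intro x x1 x2
    have f1 : T.dist a x = T.dist x a := SimpleGraph.dist_comm
    have f2 : T.dist b x = T.dist x b := SimpleGraph.dist_comm
    have g1 := gate hT.tree (u := u) (v := v) (c := a) (by omega) _ x rfl
    have g2 := gate hT.tree (u := u) (v := v) (c := b) (by omega) _ x rfl
    have k1 : T.dist x u ≤ T.dist x a + T.dist a u := hT.tree.connected.dist_triangle
    have k2 : T.dist x v ≤ T.dist x b + T.dist b v := hT.tree.connected.dist_triangle
    rcases adj_cases hT.tree hab x with h5 | h5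
    · right
      rcases g1 with g1 | g1
      · omega
      · omega
    · left
      rcases g2 with g2 | g2
      · omega
      · omega
  have c1 : T.dist (g • u) (g • v) = j + j + 1 := by rw [dist_smul hT, h]
  have c2 : T.dist (g • u) (g • a) = j := by rw [dist_smul hT, h1]
  have c3 : T.dist (g • a) (g • v) = j + 1 := by rw [dist_smul hT, h3]
  have c4 : T.dist (g • u) (g • b) = j + 1 := by rw [dist_smul hT, h4]
  have c5 : T.dist (g • b) (g • v) = j := by rw [dist_smul hT, h2]
  have f1 : T.dist (g • v) a = T.dist a (g • v) := SimpleGraph.dist_comm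
  have f2 : T.dist (g • v) b = T.dist b (g • v) := SimpleGraph.dist_comm
  have k1 : T.dist (g • u) (g • v) ≤ T.dist (g • u) a + T.dist a (g • v) :=
    hT.tree.connected.dist_triangle
  have k2 : T.dist (g • u) (g • v) ≤ T.dist (g • u) b + T.dist b (g • v) :=
    hT.tree.connected.dist_triangle
  have uniq := fun (c c' : V) => point_unique hT.tree (u := g • u) (v := g • v) (c := c) (c' := c')
  have p1 := pos (g • u) a1 a2
  have p2 := pos (g • v) a3 a4
  rw [c1] at uniq k1 k2
  clear pos a1 a2 a3 a4 e1 e2 t1 t2 t3 t4 h1 h2 h3 h4 h c1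
  rcases p1 with p1 | p1
  · rcases p2 with p2 | p2
    · exfalso
      omega
    · have m1 : T.dist (g • u) a = j := by omega
      have m2 : T.dist a (g • v) = j + 1 := by omega
      have m3 : T.dist (g • u) b = j + 1 := by omega
      have m4 : T.dist b (g • v) = j := by omega
      exact ⟨uniq a (g • a) (by rw [m1, m2]; omega) (by rw [c2, m1]) (by rw [c3, m2]),
        uniq b (g • b) (by rw [m3, m4]; omega) (by rw [c4, m3]) (by rw [c5, m4])⟩
  · rcases p2 with p2 | p2
    · exfalso
      have m1 : T.dist (g • u) a = j + 1 := by omega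
      have m2 : T.dist a (g • v) = j := by omega
      have m3 : T.dist (g • u) b = j := by omega
      have m4 : T.dist b (g • v) = j + 1 := by omega
      exact hT.noInv g a b hab
        (uniq b (g • a) (by rw [m3, m4]; omega) (by rw [c2, m3]) (by rw [c3, m4]))
        (uniq a (g • b) (by rw [m1, m2]; omega) (by rw [c4, m1]) (by rw [c5, m2]))
    · exfalso
      omega

variable {S : ∀ (G : Type) [Group G], Prop}

/-- The finitely generated subgroups which fix the ends of a path. -/
theorem good_of_seg (hT : IsTreeAction G V T) (hV : ∀ v : V, KLHull S (stabilizer G v)) (k : ℕ)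
    (hE : ∀ u v, T.dist u v = k → ∀ H : Subgroup G, H.FG →
      (∀ h ∈ H, h • u = u ∧ h • v = v) → Good S ⊤ H) :
    ∀ (m : ℕ) (u v : V), T.dist u v + m = k → ∀ H : Subgroup G, H.FG →
      (∀ h ∈ H, h • u = u ∧ h • v = v) → Good S ⊤ H := by
  intro m
  induction m with
  | zero => exact hE
  | succ m ih =>
    intro u v huv H hfg hH
    -- two fixed points at a larger distance
    have hlong : ∀ K : Subgroup G, K.FG → ∀ x y : V, (∀ k ∈ K, k • x = x ∧ k • y = y) →
        T.dist u v < T.dist x y → Good S ⊤ K := by
      intro K hK x y hxy hlt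
      obtain ⟨c, h1, h2⟩ := exists_point hT.tree x y (T.dist u v + 1) hlt
      refine ih x c (by omega) K hK fun k hk => ⟨(hxy k hk).1, ?_⟩
      exact fix_point hT (hxy k hk).1 (hxy k hk).2 (by omega)
    have hglue : ∀ D : Subgroup G, H ≤ D → KLHull S D →
        (∀ g ∉ D, ¬ (T.dist (g • u) u ≤ T.dist u v ∧ T.dist (g • u) v ≤ T.dist u v ∧
          T.dist (g • v) u ≤ T.dist u v ∧ T.dist (g • v) v ≤ T.dist u v)) → Good S ⊤ H := by
      intro D hHD hD hg
      refine Good.glue hHD le_top (Good.hom hHD hD (MonoidHom.id _) fun x _ h => h) ?_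
      intro g _ hgD K hK hKH
      have hfix : ∀ x : V, (∀ h ∈ H, h • x = x) → ∀ k ∈ K, k • x = x ∧ k • g • x = g • x := by
        intro x hx k hk
        refine ⟨hx k (hKH k hk).1, ?_⟩
        have h1 := hx _ (hKH k hk).2
        rw [mul_smul, mul_smul, inv_smul_eq_iff] at h1
        exact h1
      have hu := hfix u fun h hh => (hH h hh).1
      have hv := hfix v fun h hh => (hH h hh).2
      have h1 := hg g hgD
      by_cases c1 : T.dist (g • u) u ≤ T.dist u v
      · by_cases c2 : T.dist (g • u) v ≤ T.dist u v
        · by_cases c3 : T.dist (g • v) u ≤ T.dist u v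
          · by_cases c4 : T.dist (g • v) v ≤ T.dist u v
            · exact absurd ⟨c1, c2, c3, c4⟩ h1
            · exact hlong K hK _ _ (fun k hk => ⟨(hv k hk).2, (hv k hk).1⟩) (not_le.1 c4)
          · exact hlong K hK _ _ (fun k hk => ⟨(hv k hk).2, (hu k hk).1⟩) (not_le.1 c3)
        · exact hlong K hK _ _ (fun k hk => ⟨(hu k hk).2, (hv k hk).1⟩) (not_le.1 c2)
      · exact hlong K hK _ _ (fun k hk => ⟨(hu k hk).2, (hu k hk).1⟩) (not_le.1 c1)
    rcases Nat.even_or_odd' (T.dist u v) with ⟨j, hj | hj⟩
    · obtain ⟨c, h1, h2⟩ := exists_point hT.tree u v j (by omega)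
      refine hglue (stabilizer G c) (fun h hh => ?_) (hV c) fun g hg hall => hg ?_
      · exact fix_point hT (hH h hh).1 (hH h hh).2 (by omega)
      · obtain ⟨a1, a2, a3, a4⟩ := hall
        have h3 : T.dist u v = j + j := by omega
        rw [h3] at a1 a2 a3 a4
        exact even_centre hT (c := c) h1 (by omega) h3 a1 a2 a3 a4
    · obtain ⟨a, h1, h2⟩ := exists_point hT.tree u v j (by omega)
      have hav : a ≠ v := by
        rintro rfl
        rw [SimpleGraph.dist_self] at h2
        omega
      obtain ⟨b, hab, hb⟩ := exists_closer' hT.tree hav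
      have e1 : T.dist a b = 1 := SimpleGraph.dist_eq_one_iff_adj.2 hab
      have t1 : T.dist u b ≤ T.dist u a + T.dist a b := hT.tree.connected.dist_triangle
      have t2 : T.dist u v ≤ T.dist u b + T.dist b v := hT.tree.connected.dist_triangle
      refine hglue (stabilizer G a ⊓ stabilizer G b) (fun h hh => ⟨?_, ?_⟩) ?_
        fun g hg hall => hg ?_
      · exact fix_point hT (hH h hh).1 (hH h hh).2 (by omega)
      · exact fix_point hT (hH h hh).1 (hH h hh).2 (by omega)
      · exact KLHull.sub (Subgroup.inclusion (K := stabilizer G a) inf_le_left)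
          (Subgroup.inclusion_injective _) (hV a)
      · obtain ⟨a1, a2, a3, a4⟩ := hall
        have h3 : T.dist u v = j + j + 1 := by omega
        rw [h3] at a1 a2 a3 a4
        exact odd_centre hT hab h1 (by omega) h3 a1 a2 a3 a4

/-- **Groups acting on trees with good stabilizers of paths of length `k`.** -/
theorem seg_tree (ht : TorsionFree G) (hT : IsTreeAction G V T)
    (hV : ∀ v : V, KLHull S (stabilizer G v)) (k : ℕ)
    (hE : ∀ u v, T.dist u v = k → ∀ H : Subgroup G, H.FG →
      (∀ h ∈ H, h • u = u ∧ h • v = v) → Good S ⊤ H) : KLHull S G := by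
  refine good_tree ht hT hV fun p q hpq H hfg hH => ?_
  have e1 : T.dist p q = 1 := SimpleGraph.dist_eq_one_iff_adj.2 hpq
  rcases Nat.eq_zero_or_pos k with hk | hk
  · refine hE p p ?_ H hfg fun h hh => ⟨(hH h hh).1, (hH h hh).1⟩
    rw [hk, SimpleGraph.dist_self]
  · exact good_of_seg hT hV k hE (k - 1) p q (by omega) H hfg hH

end

end Pool.Agent.OM
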