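import Pool.Agent.Lib.MP_98022b_om.Base

/-!
# Sections over virtually solvable subgroups
-/

set_option autoImplicit false

namespace Pool.Agent.OM

open SimpleGraph Pool.Agent.FJ UC
open Pool.Agent.Biset hiding TorsionFree
open scoped Pointwise

variable {S : ∀ (G : Type) [Group G], Prop}

section level2

variable {G : Type} [Group G] (H : Subgroup G)

/-- The commensurator of `H`. -/
def Cm : Subgroup G := Subgroup.Commensurable.commensurator H

theorem conjAct_smul (g : G) : ConjAct.toConjAct g • H = H.map (MulAut.conj g).toMonoidHom := by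
  ext x
  rw [Subgroup.mem_map, Subgroup.mem_smul_pointwise_iff_exists]
  rfl

theorem mem_Cm (g : G) : g ∈ Cm H ↔
    (H.map (MulAut.conj g).toMonoidHom).relIndex H ≠ 0 ∧
      H.relIndex (H.map (MulAut.conj g).toMonoidHom) ≠ 0 := by
  unfold Cm
  rw [Subgroup.Commensurable.commensurator_mem_iff, conjAct_smul]
  rfl

theorem le_Cm : H ≤ Cm H := by
  intro h hh
  rw [mem_Cm]
  have : H.map (MulAut.conj h).toMonoidHom = H := by
    ext x
    rw [Subgroup.mem_map]
    constructor
    · rintro ⟨y, hy, rfl⟩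
      exact mul_mem (mul_mem hh hy) (inv_mem hh)
    · intro hx
      refine ⟨h⁻¹ * x * h, mul_mem (mul_mem (inv_mem hh) hx) hh, ?_⟩
      show h * (h⁻¹ * x * h) * h⁻¹ = x
      group
  rw [this, Subgroup.relIndex_self]
  exact ⟨one_ne_zero, one_ne_zero⟩

/-- `H` as a subgroup of its commensurator. -/
def H1 : Subgroup (Cm H) := H.subgroupOf (Cm H)

theorem commensurated_H1 : Commensurated (H1 H) := by
  intro g
  have h1 : (H1 H).map (Cm H).subtype = H := Subgroup.map_subgroupOf_eq_of_le (le_Cm H)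
  have h2 : ((H1 H).map (MulAut.conj g).toMonoidHom).map (Cm H).subtype =
      H.map (MulAut.conj (g : G)).toMonoidHom := by
    have h3 : ((H1 H).map (MulAut.conj g).toMonoidHom).map (Cm H).subtype =
        ((H1 H).map (Cm H).subtype).map (MulAut.conj (g : G)).toMonoidHom := by
      rw [Subgroup.map_map, Subgroup.map_map]
      rfl
    rw [h3, h1]
  show ((H1 H).map (MulAut.conj g).toMonoidHom).relIndex (H1 H) ≠ 0
  rw [← Subgroup.relIndex_map_map_of_injective _ _ (Cm H).subtype_injective, h1, h2]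
  exact ((mem_Cm H g).1 g.2).1

/-- The letters of the first level. -/
def D1 : Set (Cm H) := {d | d ∉ H1 H}

theorem letter1 : IsLetterSet (H1 H) (D1 H) where
  inv d hd h := hd (by rw [← inv_inv d]; exact inv_mem h)
  mul_left c hc d hd h := hd (by
    have := mul_mem (inv_mem hc) h
    rwa [inv_mul_cancel_left] at this)
  mul_right c hc d hd h := hd (by
    have := mul_mem h (inv_mem hc)
    rwa [mul_inv_cancel_right] at this)
  notMem d hd := hd

/-- The letters of the first level in the big group. -/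
def D0 : Set G := {g | g ∈ Cm H ∧ g ∉ H}

/-- The map on cosets. -/
def cosetMap : Cm H ⧸ H1 H → G ⧸ H :=
  Quotient.map' (Cm H).subtype (by
    intro a b h
    rw [QuotientGroup.leftRel_apply] at h ⊢
    exact h)

theorem cosetMap_mk (c : Cm H) : cosetMap H (c : Cm H ⧸ H1 H) = ((c : G) : G ⧸ H) := rfl

theorem cosetMap_injective : Function.Injective (cosetMap H) := by
  intro a b h
  induction a using QuotientGroup.induction_on with
  | H a =>
  induction b using QuotientGroup.induction_on with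
  | H b =>
  rw [cosetMap_mk, cosetMap_mk, QuotientGroup.eq] at h
  exact QuotientGroup.eq.2 h

theorem cosetMap_smul (g : Cm H) (v : Cm H ⧸ H1 H) :
    cosetMap H (g • v) = (g : G) • cosetMap H v := by
  induction v using QuotientGroup.induction_on with
  | H v => rfl

/-- The map on letters. -/
def iota (e : Letter (H1 H) (D1 H)) : Letter H (D0 H) :=
  ⟨(cosetMap H e.1.1, cosetMap H e.1.2), by
    obtain ⟨a, b, h1, h2, h3⟩ := e.2
    refine ⟨a, b, ?_, ?_, ?_⟩
    · rw [← cosetMap_mk, h1]
    · rw [← cosetMap_mk, h2]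
    · exact ⟨(a⁻¹ * b).2, h3⟩⟩

theorem iota_injective : Function.Injective (iota H) := by
  intro e e' h
  have h1 := congrArg (fun x => x.1.1) h
  have h2 := congrArg (fun x => x.1.2) h
  exact Subtype.ext (Prod.ext (cosetMap_injective H h1) (cosetMap_injective H h2))

theorem iota_smul (g : Cm H) (e : Letter (H1 H) (D1 H)) :
    iota H (g • e) = (g : G) • iota H e :=
  Subtype.ext (Prod.ext (cosetMap_smul H g e.1.1) (cosetMap_smul H g e.1.2))

/-- The inclusion of the first level. -/
def J : W (H1 H) (D1 H) →* W H (D0 H) :=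
  SemidirectProduct.map (FreeGroup.map (iota H)) (Cm H).subtype (by
    intro g
    refine FreeGroup.ext_hom _ _ fun e => ?_
    show FreeGroup.map (iota H) (act _ _ g (FreeGroup.of e)) =
      act H (D0 H) (g : G) (FreeGroup.map (iota H) (FreeGroup.of e))
    rw [act_of, FreeGroup.map.of, FreeGroup.map.of, act_of, iota_smul])

theorem J_left (x : W (H1 H) (D1 H)) : (J H x).left = FreeGroup.map (iota H) x.left := rfl
theorem J_right (x : W (H1 H) (D1 H)) : (J H x).right = (x.right : G) := rfl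

theorem J_injective : Function.Injective (J H) := by
  intro x y h
  have h1 := congrArg SemidirectProduct.left h
  have h2 := congrArg SemidirectProduct.right h
  rw [J_left, J_left] at h1
  rw [J_right, J_right] at h2
  exact SemidirectProduct.ext (FreeGroup.map_injective (iota_injective H) h1) (Subtype.ext h2)

/-- The group of the first level in the big group. -/
noncomputable def C2 : Subgroup (W H (D0 H)) := (Grp (H1 H) (D1 H)).map (J H)

theorem C2_right {x : W H (D0 H)} (hx : x ∈ C2 H) : x.right ∈ Cm H := by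
  obtain ⟨y, -, rfl⟩ := hx
  exact y.right.2

/-- The letters of the second level. -/
def D2 : Set (W H (D0 H)) :=
  {x | ∃ c ∈ C2 H, ∃ c' ∈ C2 H, ∃ d : G, d ∉ Cm H ∧ x = c * SemidirectProduct.inr d * c'}

theorem aux_inv {K : Type} [Group K] (c d c' : K) : (c * d * c')⁻¹ = c'⁻¹ * d⁻¹ * c⁻¹ := by
  group

theorem aux_left {K : Type} [Group K] (a c d c' : K) : a * (c * d * c') = a * c * d * c' := by
  group

theorem aux_right {K : Type} [Group K] (a c d c' : K) : c * d * c' * a = c * d * (c' * a) := by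
  group

theorem D2_inv {x : W H (D0 H)} (hx : x ∈ D2 H) : x⁻¹ ∈ D2 H := by
  obtain ⟨c, hc, c', hc', d, hd, h⟩ := hx
  refine ⟨c'⁻¹, inv_mem hc', c⁻¹, inv_mem hc, d⁻¹, fun h => hd ?_, ?_⟩
  · rw [← inv_inv d]; exact inv_mem h
  · rw [map_inv, h]; exact aux_inv _ _ _

theorem D2_left {a x : W H (D0 H)} (ha : a ∈ C2 H) (hx : x ∈ D2 H) : a * x ∈ D2 H := by
  obtain ⟨c, hc, c', hc', d, hd, h⟩ := hx
  exact ⟨a * c, mul_mem ha hc, c', hc', d, hd, by rw [h]; exact aux_left _ _ _ _⟩

theorem D2_right {a x : W H (D0 H)} (ha : a ∈ C2 H) (hx : x ∈ D2 H) : x * a ∈ D2 H := by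
  obtain ⟨c, hc, c', hc', d, hd, h⟩ := hx
  exact ⟨c, hc, c' * a, mul_mem hc' ha, d, hd, by rw [h]; exact aux_right _ _ _ _⟩

theorem D2_notMem {x : W H (D0 H)} (hx : x ∈ D2 H) : x ∉ C2 H := by
  obtain ⟨c, hc, c', hc', d, hd, h⟩ := hx
  intro hx
  apply hd
  have h0 : x.right = c.right * d * c'.right := by
    rw [h, SemidirectProduct.mul_right, SemidirectProduct.mul_right,
      SemidirectProduct.right_inr]
  have h1 : c.right * d * c'.right ∈ Cm H := by
    rw [← h0]
    exact C2_right H hx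
  have h2 := mul_mem (mul_mem (inv_mem (C2_right H hc)) h1) (inv_mem (C2_right H hc'))
  have h3 : c.right⁻¹ * (c.right * d * c'.right) * c'.right⁻¹ = d := by group
  rwa [h3] at h2

theorem letter2 : IsLetterSet (C2 H) (D2 H) :=
  ⟨fun _ hx => D2_inv H hx, fun _ ha _ hx => D2_left H ha hx, fun _ ha _ hx => D2_right H ha hx,
    fun _ hx => D2_notMem H hx⟩

open Classical in
/-- The retraction. -/
noncomputable def retr : FreeGroup (Letter H (D0 H)) →* FreeGroup (Letter H (D0 H)) :=
  FreeGroup.lift fun e => if ∃ c ∈ Cm H, ((c : G) : G ⧸ H) = e.1.1 then FreeGroup.of e else 1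

theorem retr_map (w : FreeGroup (Letter (H1 H) (D1 H))) :
    retr H (FreeGroup.map (iota H) w) = FreeGroup.map (iota H) w := by
  have h : (retr H).comp (FreeGroup.map (iota H)) = FreeGroup.map (iota H) := by
    refine FreeGroup.ext_hom _ _ fun e => ?_
    rw [MonoidHom.comp_apply, FreeGroup.map.of]
    unfold retr
    rw [FreeGroup.lift_apply_of, if_pos]
    obtain ⟨a, b, h1, h2, h3⟩ := e.2
    exact ⟨a, a.2, by rw [← cosetMap_mk, h1]; rfl⟩
  exact congrArg (fun f => f w) h

theorem retr_act {d : G} (hd : d ∉ Cm H) (w : FreeGroup (Letter (H1 H) (D1 H))) :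
    retr H (act H (D0 H) d (FreeGroup.map (iota H) w)) = 1 := by
  have h : (retr H).comp ((act H (D0 H) d).toMonoidHom.comp (FreeGroup.map (iota H))) = 1 := by
    refine FreeGroup.ext_hom _ _ fun e => ?_
    show retr H (act H (D0 H) d (FreeGroup.map (iota H) (FreeGroup.of e))) = 1
    rw [FreeGroup.map.of, act_of]
    unfold retr
    rw [FreeGroup.lift_apply_of, if_neg]
    rintro ⟨c, hc, h1⟩
    obtain ⟨a, b, h2, -, -⟩ := e.2
    have h3 : ((c : G) : G ⧸ H) = ((d * (a : G) : G) : G ⧸ H) := by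
      rw [h1]
      show d • cosetMap H e.1.1 = _
      rw [← h2]
      rfl
    rw [QuotientGroup.eq] at h3
    apply hd
    have h4 := mul_mem (mul_mem hc (le_Cm H h3)) (inv_mem a.2)
    have h5 : c * (c⁻¹ * (d * (a : G))) * (a : G)⁻¹ = d := by group
    rwa [h5] at h4
  exact congrArg (fun f => f w) h

/-- Elements of `C2 ∩ d C2 d⁻¹`. -/
theorem mem_inter {d : G} (hd : d ∉ Cm H) {y : W H (D0 H)} (h1 : y ∈ C2 H)
    (h2 : y ∈ (C2 H).map (MulAut.conj (SemidirectProduct.inr d)).toMonoidHom) :
    y.left = 1 ∧ y.right ∈ H ∧ y.right ∈ H.map (MulAut.conj d).toMonoidHom := by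
  obtain ⟨x1, hx1, rfl⟩ := h1
  obtain ⟨_, ⟨x2, hx2, rfl⟩, h3⟩ := h2
  have h3' : (SemidirectProduct.inr d * J H x2 * (SemidirectProduct.inr d)⁻¹ : W H (D0 H)) =
      J H x1 := h3
  have h4 : act H (D0 H) d (FreeGroup.map (iota H) x2.left) =
      FreeGroup.map (iota H) x1.left := by
    have := congrArg SemidirectProduct.left h3'
    rw [← map_inv, SemidirectProduct.mul_left, SemidirectProduct.mul_left,
      SemidirectProduct.left_inr, SemidirectProduct.left_inr, SemidirectProduct.right_inr,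
      map_one, mul_one, one_mul, J_left, J_left] at this
    exact this
  have h5 : d * (x2.right : G) * d⁻¹ = (x1.right : G) := by
    have := congrArg SemidirectProduct.right h3'
    rw [← map_inv, SemidirectProduct.mul_right, SemidirectProduct.mul_right,
      SemidirectProduct.right_inr, SemidirectProduct.right_inr, J_right, J_right] at this
    exact this
  have h6 : FreeGroup.map (iota H) x1.left = 1 := by
    rw [← retr_map, ← h4, retr_act H hd]
  have h7 : x1.left = 1 := FreeGroup.map_injective (iota_injective H) (by rw [h6, map_one])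
  have h8 : x2.left = 1 := by
    rw [h6] at h4
    have h9 : FreeGroup.map (iota H) x2.left = 1 :=
      (act H (D0 H) d).injective (h4.trans (map_one _).symm)
    exact FreeGroup.map_injective (iota_injective H) (by rw [h9, map_one])
  have key : ∀ x : W (H1 H) (D1 H), x ∈ Grp (H1 H) (D1 H) → x.left = 1 → (x.right : G) ∈ H := by
    intro x hx hl
    rw [mem_Grp, hl, map_one] at hx
    have h10 : (Pt.ctr (x.right • ((1 : Cm H) : Cm H ⧸ H1 H)) : Pt (H1 H)) =
      Pt.ctr ((1 : Cm H) : Cm H ⧸ H1 H) := hx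
    rw [Pt.ctr.injEq] at h10
    have h11 : ((x.right * 1 : Cm H) : Cm H ⧸ H1 H) = ((1 : Cm H) : Cm H ⧸ H1 H) := h10
    rw [mul_one, QuotientGroup.eq, mul_one] at h11
    have h12 := inv_mem h11
    rw [inv_inv] at h12
    exact h12
  refine ⟨by rw [J_left, h6], by rw [J_right]; exact key x1 hx1 h7, ?_⟩
  exact ⟨(x2.right : G), key x2 hx2 h8, by rw [J_right]; exact h5⟩

theorem small_H {n : ℕ} (hfg : H.FG) (hH : VS n H) {d : G} (hd : d ∉ Cm H) :
    ∃ m, m < n ∧ VS m (H ⊓ H.map (MulAut.conj d).toMonoidHom : Subgroup G) := by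
  rw [mem_Cm] at hd
  by_cases h1 : (H.map (MulAut.conj d).toMonoidHom).relIndex H = 0
  · obtain ⟨m, hm, h2⟩ := VS.small ((Group.fg_iff_subgroup_fg H).2 hfg) hH ((H.map (MulAut.conj d).toMonoidHom).subgroupOf H)
      (fun h => h.index_ne_zero h1)
    refine ⟨m, hm, VS.of_injective
      (((H ⊓ H.map (MulAut.conj d).toMonoidHom).subtype.codRestrict H
        fun x => x.2.1).codRestrict _ fun x => x.2.2) ?_ h2⟩
    intro x y hxy
    exact Subtype.ext (congrArg (fun z : (H.map (MulAut.conj d).toMonoidHom).subgroupOf H =>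
      ((z : H) : G)) hxy)
  · have h3 : H.relIndex (H.map (MulAut.conj d).toMonoidHom) = 0 := by
      by_contra h3
      exact hd ⟨h1, h3⟩
    have h4 : VS n (H.map (MulAut.conj d).toMonoidHom) :=
      VS.of_injective (H.equivMapOfInjective _ (MulAut.conj d).injective).symm.toMonoidHom
        (H.equivMapOfInjective _ (MulAut.conj d).injective).symm.injective hH
    obtain ⟨m, hm, h2⟩ := VS.small ((Group.fg_iff_subgroup_fg _).2 (fg_map _ hfg)) h4 (H.subgroupOf (H.map (MulAut.conj d).toMonoidHom))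
      (fun h => h.index_ne_zero h3)
    refine ⟨m, hm, VS.of_injective
      (((H ⊓ H.map (MulAut.conj d).toMonoidHom).subtype.codRestrict
        (H.map (MulAut.conj d).toMonoidHom) fun x => x.2.2).codRestrict _ fun x => x.2.1) ?_ h2⟩
    intro x y hxy
    exact Subtype.ext (congrArg (fun z : H.subgroupOf (H.map (MulAut.conj d).toMonoidHom) =>
      ((z : H.map (MulAut.conj d).toMonoidHom) : G)) hxy)

theorem small2 {n : ℕ} (hfg : H.FG) (hH : VS n H) : ∀ x ∈ D2 H,
    LV (fun m => m < n)
      (C2 H ⊓ (C2 H).map (MulAut.conj x).toMonoidHom : Subgroup (W H (D0 H))) := by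
  rintro x ⟨c, hc, c', hc', d, hd, rfl⟩
  obtain ⟨m, hm, h1⟩ := small_H H hfg hH hd
  have key : ∀ y ∈ (C2 H ⊓ (C2 H).map (MulAut.conj
      (c * SemidirectProduct.inr d * c')).toMonoidHom : Subgroup (W H (D0 H))),
      c⁻¹ * y * c ∈ C2 H ∧ c⁻¹ * y * c ∈
        (C2 H).map (MulAut.conj (SemidirectProduct.inr d)).toMonoidHom := by
    rintro y ⟨hy1, ⟨z, hz, hy2⟩⟩
    have hy2' : (c * SemidirectProduct.inr d * c') * z * (c * SemidirectProduct.inr d * c')⁻¹ =
      y := hy2
    refine ⟨mul_mem (mul_mem (inv_mem hc) hy1) hc, c' * z * c'⁻¹,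
      mul_mem (mul_mem hc' hz) (inv_mem hc'), ?_⟩
    show SemidirectProduct.inr d * (c' * z * c'⁻¹) * (SemidirectProduct.inr d)⁻¹ = c⁻¹ * y * c
    rw [← hy2']
    group
  refine LV.of_injective (G := (H ⊓ H.map (MulAut.conj d).toMonoidHom : Subgroup G))
    (((SemidirectProduct.rightHom.comp (MulAut.conj c⁻¹).toMonoidHom).comp
      (Subgroup.subtype _)).codRestrict _ ?_) ?_ (LV.of_vp (B := fun m => m < n) hm h1)
  · rintro ⟨y, hy⟩
    obtain ⟨h2, h3⟩ := key y hy
    have h4 := (mem_inter H hd h2 h3).2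
    have h5 : (SemidirectProduct.rightHom ((MulAut.conj c⁻¹) y) : G) =
        (c⁻¹ * y * c).right := by
      show (c⁻¹ * y * c⁻¹⁻¹).right = _
      rw [inv_inv]
    show (SemidirectProduct.rightHom ((MulAut.conj c⁻¹) y) : G) ∈ _
    rw [h5]
    exact h4
  · rw [injective_iff_map_eq_one]
    rintro ⟨y, hy⟩ h6
    obtain ⟨h2, h3⟩ := key y hy
    have h4 := (mem_inter H hd h2 h3).1
    have h5 : (c⁻¹ * y * c).right = 1 := by
      have h7 : (SemidirectProduct.rightHom ((MulAut.conj c⁻¹) y) : G) = 1 :=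
        congrArg Subtype.val h6
      have h8 : (SemidirectProduct.rightHom ((MulAut.conj c⁻¹) y) : G) =
        (c⁻¹ * y * c).right := by
        show (c⁻¹ * y * c⁻¹⁻¹).right = _
        rw [inv_inv]
      rw [← h8, h7]
    have h9 : c⁻¹ * y * c = 1 := SemidirectProduct.ext h4 h5
    refine Subtype.ext ?_
    show y = 1
    have h10 : y = c * (c⁻¹ * y * c) * c⁻¹ := by group
    rw [h10, h9, mul_one, mul_inv_cancel]

open Classical in
/-- The section. -/
noncomputable def sect (g : G) : Grp (C2 H) (D2 H) :=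
  if h : g ∈ Cm H then sec (letter2 H) (J H (sec (letter1 H) ⟨g, h⟩).1)
  else sec (letter2 H) (SemidirectProduct.inr g)

theorem sect_of_mem {g : G} (h : g ∈ Cm H) :
    sect H g = sec (letter2 H) (J H (sec (letter1 H) ⟨g, h⟩).1) := by
  unfold sect
  rw [dif_pos h]

theorem sect_of_notMem {g : G} (h : g ∉ Cm H) :
    sect H g = sec (letter2 H) (SemidirectProduct.inr g) := by
  unfold sect
  rw [dif_neg h]

theorem J_mem (x : Grp (H1 H) (D1 H)) : J H x.1 ∈ C2 H := ⟨x.1, x.2, rfl⟩

theorem inr_mem_D2 {g : G} (h : g ∉ Cm H) : (SemidirectProduct.inr g : W H (D0 H)) ∈ D2 H :=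
  ⟨1, one_mem _, 1, one_mem _, g, h, by rw [one_mul, mul_one]⟩

theorem mem_or (g : Cm H) : g ∈ H1 H ∨ g ∈ D1 H := Classical.em _

theorem sect_H {h : G} (hh : h ∈ H) : sect H h = sec (letter2 H) (SemidirectProduct.inr h) := by
  rw [sect_of_mem H (le_Cm H hh), sec_of_mem (letter1 H) (c := ⟨h, le_Cm H hh⟩) hh]
  congr 1

theorem inr_H_mem {h : G} (hh : h ∈ H) : (SemidirectProduct.inr h : W H (D0 H)) ∈ C2 H :=
  ⟨SemidirectProduct.inr ⟨h, le_Cm H hh⟩, inr_mem (H1 H) (D1 H) (c := ⟨h, le_Cm H hh⟩) hh, by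
    refine SemidirectProduct.ext ?_ rfl
    rw [J_left, SemidirectProduct.left_inr, SemidirectProduct.left_inr, map_one]⟩

/-- The projection. -/
noncomputable def projG : Grp (C2 H) (D2 H) →* G :=
  SemidirectProduct.rightHom.comp (proj (C2 H) (D2 H))

theorem isBisection_sect : IsBisection H (projG H) (sect H) := by
  refine ⟨?_, ?_, ?_⟩
  · intro g
    by_cases hg : g ∈ Cm H
    · rw [sect_of_mem H hg]
      show (proj (C2 H) (D2 H) (sec (letter2 H) _)).right = g
      rw [proj_sec (letter2 H) (Or.inl (J_mem H _)), J_right]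
      exact congrArg Subtype.val (proj_sec (letter1 H) (mem_or H ⟨g, hg⟩))
    · rw [sect_of_notMem H hg]
      show (proj (C2 H) (D2 H) (sec (letter2 H) _)).right = g
      rw [proj_sec (letter2 H) (Or.inr (inr_mem_D2 H hg)), SemidirectProduct.right_inr]
  · intro g
    by_cases hg : g ∈ Cm H
    · have hg' : g⁻¹ ∈ Cm H := inv_mem hg
      rw [sect_of_mem H hg, sect_of_mem H hg', ← sec_inv (letter2 H) (Or.inl (J_mem H _)),
        ← map_inv]
      have := sec_inv (letter1 H) (mem_or H ⟨g, hg⟩)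
      have h2 : sec (letter1 H) (⟨g⁻¹, hg'⟩ : Cm H) = (sec (letter1 H) ⟨g, hg⟩)⁻¹ := this
      rw [h2]
      rfl
    · have hg' : g⁻¹ ∉ Cm H := fun h => hg (by rw [← inv_inv g]; exact inv_mem h)
      rw [sect_of_notMem H hg, sect_of_notMem H hg',
        ← sec_inv (letter2 H) (Or.inr (inr_mem_D2 H hg)), ← map_inv]
  · intro h hh g
    have hh' := le_Cm H hh
    by_cases hg : g ∈ Cm H
    · have h1 : h * g ∈ Cm H := mul_mem hh' hg
      have h2 : g * h ∈ Cm H := mul_mem hg hh'
      constructor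
      · rw [sect_of_mem H h1, sect_of_mem H hh', sect_of_mem H hg,
          ← sec_mul_left (letter2 H) (J_mem H _) (Or.inl (J_mem H _)), ← map_mul]
        have h3 : sec (letter1 H) (⟨h * g, h1⟩ : Cm H) =
            sec (letter1 H) ⟨h, hh'⟩ * sec (letter1 H) ⟨g, hg⟩ :=
          sec_mul_left (letter1 H) (c := ⟨h, hh'⟩) hh (mem_or H ⟨g, hg⟩)
        rw [h3]
        rfl
      · rw [sect_of_mem H h2, sect_of_mem H hh', sect_of_mem H hg,
          ← sec_mul_right (letter2 H) (J_mem H _) (Or.inl (J_mem H _)), ← map_mul]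
        have h3 : sec (letter1 H) (⟨g * h, h2⟩ : Cm H) =
            sec (letter1 H) ⟨g, hg⟩ * sec (letter1 H) ⟨h, hh'⟩ :=
          sec_mul_right (letter1 H) (c := ⟨h, hh'⟩) hh (mem_or H ⟨g, hg⟩)
        rw [h3]
        rfl
    · have h1 : h * g ∉ Cm H := fun h1 => hg (by
        have := mul_mem (inv_mem hh') h1
        rwa [inv_mul_cancel_left] at this)
      have h2 : g * h ∉ Cm H := fun h1 => hg (by
        have := mul_mem h1 (inv_mem hh')
        rwa [mul_inv_cancel_right] at this)
      constructor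
      · rw [sect_of_notMem H h1, sect_H H hh, sect_of_notMem H hg,
          ← sec_mul_left (letter2 H) (inr_H_mem H hh) (Or.inr (inr_mem_D2 H hg)), ← map_mul]
      · rw [sect_of_notMem H h2, sect_H H hh, sect_of_notMem H hg,
          ← sec_mul_right (letter2 H) (inr_H_mem H hh) (Or.inr (inr_mem_D2 H hg)), ← map_mul]

end level2

theorem sol (n : ℕ) : Sol S n := by
  induction n using Nat.strong_induction_on with
  | _ n ih =>
  intro G _ ht H hfg hH
  have h1 : VS n (H1 H) :=
    VS.of_injective ((Cm H).subtype.comp (H1 H).subtype |>.codRestrict H fun x => x.2) (by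
      intro x y hxy
      exact Subtype.ext (Subtype.ext (congrArg (fun z : H => (z : G)) hxy))) hH
  have h2 : KLHull S (Grp (H1 H) (D1 H)) :=
    level1 (H1 H) (D1 H) (TorsionFree.of_injective _ (Cm H).subtype_injective ht) (commensurated_H1 H) h1
  have h3 : KLHull S (C2 H) :=
    KLHull.sub ((Grp (H1 H) (D1 H)).equivMapOfInjective _ (J_injective H)).symm.toMonoidHom
      ((Grp (H1 H) (D1 H)).equivMapOfInjective _ (J_injective H)).symm.injective h2
  exact ⟨Grp (C2 H) (D2 H), inferInstance, projG H, sect H,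
    uc_mem (C2 H) (D2 H) (B := fun m => m < n) ih (torsionFree_W H (D0 H) ht) h3 (small2 H hfg hH),
    isBisection_sect H⟩

end Pool.Agent.OM
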